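import Mathlib

/-!
# FSol, module Ari: the real numbers
-/

namespace Pool.Agent.FSol

theorem ari {ε C₁ C₂ C₃ : ℝ} (hε : 0 < ε) (h₁ : 0 ≤ C₁) (h₂ : 0 ≤ C₂) (h₃ : 0 ≤ C₃) :
    ∃ C : ℝ, 0 < C ∧ ∀ N P Q : ℕ, 1 ≤ N → P = ⌈(N : ℝ) ^ (1 / 12 : ℝ)⌉₊ → Q = ⌈(N : ℝ) ^ (3 / 4 : ℝ)⌉₊ →
      1 ≤ P ∧ 1 ≤ Q ∧
      (P : ℝ) * (C₁ * (N : ℝ) ^ (5 / 6 : ℝ)) + ((P : ℝ) + 1) * (C₁ * (N : ℝ) ^ (5 / 6 : ℝ)) +
        C₂ * (Q : ℝ) ^ ε * ((N : ℝ) / P + Q) + C₃ * ((2 * Q : ℕ) : ℝ) ^ ε * ((N : ℝ) / P + ((2 * Q : ℕ) : ℝ)) ≤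
      C * (N : ℝ) ^ (11 / 12 + ε : ℝ) := by
  refine ⟨5 * C₁ + 3 * 2 ^ ε * C₂ + 5 * 4 ^ ε * C₃ + 1, by positivity, ?_⟩
  intro N P Q hN hP hQ
  have hN1 : (1 : ℝ) ≤ N := by exact_mod_cast hN
  have hN0 : (0 : ℝ) < N := by linarith
  obtain ⟨x, hx⟩ : ∃ x : ℝ, x = (N : ℝ) ^ (1 / 12 : ℝ) := ⟨_, rfl⟩
  have hx1 : 1 ≤ x := by rw [hx]; exact Real.one_le_rpow hN1 (by norm_num)
  have hx0 : 0 < x := by linarith
  have hpow : ∀ k : ℕ, (N : ℝ) ^ ((k : ℝ) / 12) = x ^ k := by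
    intro k
    rw [hx, ← Real.rpow_natCast, ← Real.rpow_mul hN0.le]
    congr 1
    ring
  have h12 : (N : ℝ) = x ^ 12 := by
    have := hpow 12
    norm_num at this
    exact this
  have h56 : (N : ℝ) ^ (5 / 6 : ℝ) = x ^ 10 := by
    rw [← hpow 10]; congr 1; norm_num
  have h34 : (N : ℝ) ^ (3 / 4 : ℝ) = x ^ 9 := by
    rw [← hpow 9]; congr 1; norm_num
  have h11 : (N : ℝ) ^ (11 / 12 : ℝ) = x ^ 11 := by
    rw [← hpow 11]; congr 1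
  have hPx : x ≤ P := by rw [hP, ← hx]; exact Nat.le_ceil _
  have hPx2 : (P : ℝ) ≤ 2 * x := by
    rw [hP, ← hx]
    have := Nat.ceil_lt_add_one hx0.le
    linarith
  have hx9 : 1 ≤ x ^ 9 := one_le_pow₀ hx1
  have hQx : x ^ 9 ≤ Q := by rw [hQ, h34]; exact Nat.le_ceil _
  have hQx2 : (Q : ℝ) ≤ 2 * x ^ 9 := by
    rw [hQ, h34]
    have := Nat.ceil_lt_add_one (by positivity : (0 : ℝ) ≤ x ^ 9)
    linarith
  have hP1 : (1 : ℝ) ≤ P := hx1.trans hPx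
  have hQ1 : (1 : ℝ) ≤ Q := hx9.trans hQx
  refine ⟨by exact_mod_cast hP1, by exact_mod_cast hQ1, ?_⟩
  have hE : (N : ℝ) ^ (11 / 12 + ε : ℝ) = x ^ 11 * (N : ℝ) ^ ε := by
    rw [Real.rpow_add hN0, h11]
  obtain ⟨e, he⟩ : ∃ e : ℝ, e = (N : ℝ) ^ ε := ⟨_, rfl⟩
  have he1 : 1 ≤ e := by rw [he]; exact Real.one_le_rpow hN1 hε.le
  have hx9N : x ^ 9 ≤ N := by
    rw [h12]
    exact pow_le_pow_right₀ hx1 (by norm_num)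
  have hQe : (Q : ℝ) ^ ε ≤ 2 ^ ε * e := by
    rw [he, ← Real.mul_rpow (by norm_num) hN0.le]
    exact Real.rpow_le_rpow (by linarith) (by linarith) hε.le
  have hQe2 : ((2 * Q : ℕ) : ℝ) ^ ε ≤ 4 ^ ε * e := by
    rw [he, ← Real.mul_rpow (by norm_num) hN0.le]
    refine Real.rpow_le_rpow (by positivity) ?_ hε.le
    push_cast
    linarith
  have hNP : (N : ℝ) / P ≤ x ^ 11 := by
    rw [div_le_iff₀ (by linarith), h12]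
    calc x ^ 12 = x ^ 11 * x := by ring
      _ ≤ x ^ 11 * P := mul_le_mul_of_nonneg_left hPx (by positivity)
  have hx911 : x ^ 9 ≤ x ^ 11 := pow_le_pow_right₀ hx1 (by norm_num)
  have hx1011 : x ^ 10 ≤ x ^ 11 := pow_le_pow_right₀ hx1 (by norm_num)
  have hx11 : 0 < x ^ 11 := by positivity
  rw [hE, ← he, h56]
  have t1 : (P : ℝ) * (C₁ * x ^ 10) ≤ 2 * C₁ * (x ^ 11 * e) := by
    have a1 : (P : ℝ) * x ^ 10 ≤ 2 * x ^ 11 := by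
      calc (P : ℝ) * x ^ 10 ≤ 2 * x * x ^ 10 := mul_le_mul_of_nonneg_right hPx2 (by positivity)
        _ = 2 * x ^ 11 := by ring
    have a2 : x ^ 11 ≤ x ^ 11 * e := le_mul_of_one_le_right hx11.le he1
    calc (P : ℝ) * (C₁ * x ^ 10) = C₁ * (P * x ^ 10) := by ring
      _ ≤ C₁ * (2 * (x ^ 11 * e)) := mul_le_mul_of_nonneg_left (by linarith) h₁
      _ = 2 * C₁ * (x ^ 11 * e) := by ring
  have t2 : ((P : ℝ) + 1) * (C₁ * x ^ 10) ≤ 3 * C₁ * (x ^ 11 * e) := by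
    have a1 : ((P : ℝ) + 1) * x ^ 10 ≤ 3 * x ^ 11 := by
      calc ((P : ℝ) + 1) * x ^ 10 ≤ (3 * x) * x ^ 10 :=
            mul_le_mul_of_nonneg_right (by linarith) (by positivity)
        _ = 3 * x ^ 11 := by ring
    have a2 : x ^ 11 ≤ x ^ 11 * e := le_mul_of_one_le_right hx11.le he1
    calc ((P : ℝ) + 1) * (C₁ * x ^ 10) = C₁ * ((P + 1) * x ^ 10) := by ring
      _ ≤ C₁ * (3 * (x ^ 11 * e)) := mul_le_mul_of_nonneg_left (by linarith) h₁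
      _ = 3 * C₁ * (x ^ 11 * e) := by ring
  have t3 : C₂ * (Q : ℝ) ^ ε * ((N : ℝ) / P + Q) ≤ 3 * 2 ^ ε * C₂ * (x ^ 11 * e) := by
    calc C₂ * (Q : ℝ) ^ ε * ((N : ℝ) / P + Q) ≤ C₂ * (2 ^ ε * e) * (3 * x ^ 11) := by
          refine mul_le_mul (mul_le_mul_of_nonneg_left hQe h₂) (by linarith) (by positivity) (by positivity)
      _ = 3 * 2 ^ ε * C₂ * (x ^ 11 * e) := by ring
  have t4 : C₃ * ((2 * Q : ℕ) : ℝ) ^ ε * ((N : ℝ) / P + ((2 * Q : ℕ) : ℝ)) ≤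
      5 * 4 ^ ε * C₃ * (x ^ 11 * e) := by
    have a1 : (N : ℝ) / P + ((2 * Q : ℕ) : ℝ) ≤ 5 * x ^ 11 := by
      push_cast
      linarith
    calc C₃ * ((2 * Q : ℕ) : ℝ) ^ ε * ((N : ℝ) / P + ((2 * Q : ℕ) : ℝ)) ≤ C₃ * (4 ^ ε * e) * (5 * x ^ 11) := by
          refine mul_le_mul (mul_le_mul_of_nonneg_left hQe2 h₃) a1 (by positivity) (by positivity)
      _ = 5 * 4 ^ ε * C₃ * (x ^ 11 * e) := by ring
  have t5 : 0 ≤ x ^ 11 * e := by positivity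
  have t6 : (5 * C₁ + 3 * 2 ^ ε * C₂ + 5 * 4 ^ ε * C₃ + 1) * (x ^ 11 * e) =
      2 * C₁ * (x ^ 11 * e) + 3 * C₁ * (x ^ 11 * e) + 3 * 2 ^ ε * C₂ * (x ^ 11 * e) +
        5 * 4 ^ ε * C₃ * (x ^ 11 * e) + x ^ 11 * e := by ring
  rw [t6]
  linarith

end Pool.Agent.FSol
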