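import Pool.Agent.FSol.Curve

/-!
# FSol, module CurveN: at most `C N^(5/6)` integers `X ≤ N` with a point on `D f² = X³ + k`

Paper proof. `(A, 2A]` with `2 |k| ≤ A³`: let `H` be the largest natural number with `(1000 H³)² ≤ A`, i.e. `H = ⌊(A/10^6)^(1/6)⌋`
(if `H = 0` the windows are single points, still at most one each: then `A < 10^6` and the bound `card ≤ A ≤ 10 A^(5/6)` is trivial).
Cover `(A, 2A]` by at most `A / (H + 1) + 1` windows `[a, a + H]`; `window` gives at most `3 (A/(H+1) + 1) ≤ C A^(5/6)` points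
(`H + 1 ≥ (A/10^6)^(1/6) = A^(1/6)/10`; the last window may be shifted to the left to stay in `(A, 2A]`).
Now `[1, N]`: the `X ≤ X₀` with `X₀ = 2 ⌈(2(N + 6))^(1/3)⌉` are at most `C N^(5/6)` many; the others lie in dyadic intervals
`(A, 2A]`, `A = ⌊N / 2^j⌋` or so (cover `(X₀/2, N]`: take `A_0 = ⌈N/2⌉`, `A_(j+1) = ⌈A_j / 2⌉`, while `A_j³ ≥ 2 (N + 6)`), geometric sum.
(Simplest in Lean: strong induction on `M ≤ N` of the statement `card of [1, M] ≤ C₁ M^(5/6) + X₀`, splitting `[1, M]` in `[1, ⌊M/2⌋]`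
and `(⌊M/2⌋, M] ⊆ (⌊M/2⌋, 2⌊M/2⌋] ∪ {M}`, with `C₁ (M/2)^(5/6) + C A^(5/6) + 1 ≤ C₁ M^(5/6)` as `2^(-5/6) < 0.57`.)
-/

open Finset

namespace Pool.Agent.FSol

theorem exists_len {A : ℕ} (hA : 1 ≤ A) :
    ∃ H : ℕ, (1000 * H ^ 3) ^ 2 ≤ A ∧ A < (1000 * (H + 1) ^ 3) ^ 2 := by
  by_contra hcon
  push Not at hcon
  have h : ∀ H : ℕ, (1000 * H ^ 3) ^ 2 ≤ A := by
    intro H
    induction H with
    | zero => simp
    | succ H ih => exact hcon H ih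
  have h1 := h A
  have h2 : A ≤ A ^ 3 := Nat.le_self_pow (by norm_num) A
  nlinarith

open Classical in
theorem block {D : ℕ} (hD : 1 ≤ D) {k : ℤ} {A : ℕ} (hA : 1 ≤ A) (hk : 2 * |k| ≤ (A : ℤ) ^ 3) :
    (((Ioc A (2 * A)).filter (fun X : ℕ => ∃ f : ℤ, (D : ℤ) * f ^ 2 = (X : ℤ) ^ 3 + k)).card : ℝ) ≤
      33 * (A : ℝ) ^ (5 / 6 : ℝ) := by
  obtain ⟨H, hH1, hH2⟩ := exists_len hA
  have h1 : ((Ioc A (2 * A)).filter (fun X : ℕ => ∃ f : ℤ, (D : ℤ) * f ^ 2 = (X : ℤ) ^ 3 + k)).card ≤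
      3 * (range (A / (H + 1) + 1)).card := by
    refine Finset.card_le_mul_card_image_of_maps_to (f := fun X : ℕ => (X - (A + 1)) / (H + 1))
      (fun X hX => ?_) 3 (fun j _ => ?_)
    · rw [mem_filter, mem_Ioc] at hX
      rw [mem_range]
      refine Nat.lt_succ_of_le (Nat.div_le_div_right ?_)
      omega
    · rcases Finset.eq_empty_or_nonempty (((Ioc A (2 * A)).filter (fun X : ℕ => ∃ f : ℤ,
        (D : ℤ) * f ^ 2 = (X : ℤ) ^ 3 + k)).filter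
        (fun X : ℕ => (X - (A + 1)) / (H + 1) = j)) with h0 | ⟨X₀, hX₀⟩
      · rw [h0]
        simp
      · have key : ∀ X : ℕ, A < X → (X - (A + 1)) / (H + 1) = j →
            A + 1 + (H + 1) * j ≤ X ∧ X ≤ A + 1 + (H + 1) * j + H := by
          intro X hX hj
          have e1 := Nat.div_add_mod (X - (A + 1)) (H + 1)
          have e2 := Nat.mod_lt (X - (A + 1)) (Nat.succ_pos H)
          rw [hj] at e1
          generalize (H + 1) * j = m at e1 ⊢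
          generalize (X - (A + 1)) % (H + 1) = w at e1 e2
          have e3 : w < H + 1 := e2
          omega
        rw [mem_filter, mem_filter, mem_Ioc] at hX₀
        have k0 := key X₀ hX₀.1.1.1 hX₀.2
        generalize hm : (H + 1) * j = m at key k0
        have hw := window hD hA hk (a := A + 1 + m) (H := min H (2 * A - (A + 1 + m))) (by omega)
          (by omega) (le_trans (Nat.pow_le_pow_left (Nat.mul_le_mul_left _
            (Nat.pow_le_pow_left (min_le_left _ _) 3)) 2) hH1)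
        refine le_trans (Finset.card_le_card fun X hX => ?_) hw
        rw [mem_filter, mem_filter, mem_Ioc] at hX
        have k1 := key X hX.1.1.1 hX.2
        rw [mem_filter, mem_Icc]
        refine ⟨⟨k1.1, ?_⟩, hX.1.2⟩
        have := hX.1.1.2
        omega
  rw [card_range] at h1
  have hA' : (1 : ℝ) ≤ A := by exact_mod_cast hA
  have hA0 : (0 : ℝ) < A := by linarith
  have hh : (0 : ℝ) < (H : ℝ) + 1 := by positivity
  have h2 : (A : ℝ) ^ (1 / 6 : ℝ) ≤ 10 * ((H : ℝ) + 1) := by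
    have e1 : (A : ℝ) ≤ (10 * ((H : ℝ) + 1)) ^ (6 : ℕ) := by
      have e2 : (A : ℝ) ≤ (1000 * ((H : ℝ) + 1) ^ 3) ^ 2 := by exact_mod_cast hH2.le
      refine e2.trans (le_of_eq ?_)
      ring
    calc (A : ℝ) ^ (1 / 6 : ℝ) ≤ ((10 * ((H : ℝ) + 1)) ^ (6 : ℕ)) ^ (1 / 6 : ℝ) :=
          Real.rpow_le_rpow hA0.le e1 (by norm_num)
      _ = 10 * ((H : ℝ) + 1) := by
          rw [← Real.rpow_natCast, ← Real.rpow_mul (by positivity)]
          norm_num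
  have h3 : (A : ℝ) / ((H : ℝ) + 1) ≤ 10 * (A : ℝ) ^ (5 / 6 : ℝ) := by
    rw [div_le_iff₀ hh]
    have e1 : (A : ℝ) = (A : ℝ) ^ (5 / 6 : ℝ) * (A : ℝ) ^ (1 / 6 : ℝ) := by
      rw [← Real.rpow_add hA0]
      norm_num
    calc (A : ℝ) = (A : ℝ) ^ (5 / 6 : ℝ) * (A : ℝ) ^ (1 / 6 : ℝ) := e1
      _ ≤ (A : ℝ) ^ (5 / 6 : ℝ) * (10 * ((H : ℝ) + 1)) :=
          mul_le_mul_of_nonneg_left h2 (by positivity)
      _ = 10 * (A : ℝ) ^ (5 / 6 : ℝ) * ((H : ℝ) + 1) := by ring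
  have h4 : (1 : ℝ) ≤ (A : ℝ) ^ (5 / 6 : ℝ) := Real.one_le_rpow hA' (by norm_num)
  have h5 : ((A / (H + 1) : ℕ) : ℝ) ≤ (A : ℝ) / ((H : ℝ) + 1) := by
    have := Nat.cast_div_le (α := ℝ) (m := A) (n := H + 1)
    push_cast at this
    exact this
  have h6 : (((Ioc A (2 * A)).filter (fun X : ℕ => ∃ f : ℤ,
      (D : ℤ) * f ^ 2 = (X : ℤ) ^ 3 + k)).card : ℝ) ≤ 3 * (((A / (H + 1) : ℕ) : ℝ) + 1) := by
    exact_mod_cast h1
  linarith

open Classical in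
theorem dyadic {D : ℕ} (hD : 1 ≤ D) {k : ℤ} {N : ℕ} (hN : 1 ≤ N) (hk : |k| ≤ 6 + N) (M : ℕ) :
    (((range (M + 1)).filter (fun X : ℕ => ∃ f : ℤ, (D : ℤ) * f ^ 2 = (X : ℤ) ^ 3 + k)).card : ℝ) ≤
      100 * (M : ℝ) ^ (5 / 6 : ℝ) + 8 * (N : ℝ) ^ (5 / 6 : ℝ) := by
  induction M using Nat.strong_induction_on with
  | _ M ih =>
  have hN' : (1 : ℝ) ≤ N := by exact_mod_cast hN
  have hM0 : (0 : ℝ) ≤ 100 * (M : ℝ) ^ (5 / 6 : ℝ) := by positivity
  obtain ⟨A, hA⟩ : ∃ A, A = M / 2 := ⟨_, rfl⟩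
  rcases lt_or_ge (A ^ 3) (2 * (N + 6)) with h | h
  · have h1 : ((range (M + 1)).filter (fun X : ℕ => ∃ f : ℤ,
        (D : ℤ) * f ^ 2 = (X : ℤ) ^ 3 + k)).card ≤ 2 * A + 2 := by
      refine (Finset.card_filter_le _ _).trans ?_
      rw [card_range]
      omega
    have h2 : (((range (M + 1)).filter (fun X : ℕ => ∃ f : ℤ,
        (D : ℤ) * f ^ 2 = (X : ℤ) ^ 3 + k)).card : ℝ) ≤ 2 * A + 2 := by exact_mod_cast h1
    have h3 : (A : ℝ) ≤ 3 * (N : ℝ) ^ (5 / 6 : ℝ) := by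
      by_contra hcon
      rw [not_le] at hcon
      have e1 : (1 : ℝ) ≤ (N : ℝ) ^ (5 / 6 : ℝ) := Real.one_le_rpow hN' (by norm_num)
      have e2 : (N : ℝ) ≤ ((N : ℝ) ^ (5 / 6 : ℝ)) ^ 3 := by
        rw [← Real.rpow_natCast, ← Real.rpow_mul (by positivity)]
        calc (N : ℝ) = (N : ℝ) ^ (1 : ℝ) := (Real.rpow_one _).symm
          _ ≤ _ := Real.rpow_le_rpow_of_exponent_le hN' (by norm_num)
      have e3 : (3 * (N : ℝ) ^ (5 / 6 : ℝ)) ^ 3 < (A : ℝ) ^ 3 :=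
        pow_lt_pow_left₀ hcon (by positivity) (by norm_num)
      have e4 : (A : ℝ) ^ 3 < 2 * (N + 6) := by exact_mod_cast h
      rw [mul_pow] at e3
      linarith
    have h4 : (1 : ℝ) ≤ (N : ℝ) ^ (5 / 6 : ℝ) := Real.one_le_rpow hN' (by norm_num)
    linarith
  · have hA1 : 1 ≤ A := by
      rcases Nat.eq_zero_or_pos A with h0 | h0
      · rw [h0] at h
        norm_num at h
      · exact h0
    have hk2 : 2 * |k| ≤ (A : ℤ) ^ 3 := by
      have e1 : (2 * (N + 6) : ℤ) ≤ (A : ℤ) ^ 3 := by exact_mod_cast h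
      linarith
    have hAM : A < M := by omega
    have h1 := ih A hAM
    have h2 := block hD hA1 hk2
    have h3 : ((range (M + 1)).filter (fun X : ℕ => ∃ f : ℤ,
        (D : ℤ) * f ^ 2 = (X : ℤ) ^ 3 + k)).card ≤
        ((range (A + 1)).filter (fun X : ℕ => ∃ f : ℤ, (D : ℤ) * f ^ 2 = (X : ℤ) ^ 3 + k)).card +
        ((Ioc A (2 * A)).filter (fun X : ℕ => ∃ f : ℤ, (D : ℤ) * f ^ 2 = (X : ℤ) ^ 3 + k)).card + 1 := by
      have e1 : (range (M + 1)).filter (fun X : ℕ => ∃ f : ℤ,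
          (D : ℤ) * f ^ 2 = (X : ℤ) ^ 3 + k) ⊆
          ((range (A + 1)).filter (fun X : ℕ => ∃ f : ℤ, (D : ℤ) * f ^ 2 = (X : ℤ) ^ 3 + k) ∪
          (Ioc A (2 * A)).filter (fun X : ℕ => ∃ f : ℤ, (D : ℤ) * f ^ 2 = (X : ℤ) ^ 3 + k)) ∪ {M} := by
        intro X hX
        rw [mem_filter, mem_range] at hX
        rw [mem_union, mem_union, mem_filter, mem_filter, mem_range, mem_Ioc, mem_singleton]
        by_cases c1 : X < A + 1
        · exact Or.inl (Or.inl ⟨c1, hX.2⟩)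
        by_cases c2 : X ≤ 2 * A
        · exact Or.inl (Or.inr ⟨⟨by omega, c2⟩, hX.2⟩)
        · exact Or.inr (by omega)
      refine (Finset.card_le_card e1).trans ((Finset.card_union_le _ _).trans ?_)
      rw [card_singleton]
      exact Nat.add_le_add_right (Finset.card_union_le _ _) 1
    have h4 : (((range (M + 1)).filter (fun X : ℕ => ∃ f : ℤ,
        (D : ℤ) * f ^ 2 = (X : ℤ) ^ 3 + k)).card : ℝ) ≤
        (((range (A + 1)).filter (fun X : ℕ => ∃ f : ℤ,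
          (D : ℤ) * f ^ 2 = (X : ℤ) ^ 3 + k)).card : ℝ) +
        (((Ioc A (2 * A)).filter (fun X : ℕ => ∃ f : ℤ,
          (D : ℤ) * f ^ 2 = (X : ℤ) ^ 3 + k)).card : ℝ) + 1 := by exact_mod_cast h3
    have hMR : (1 : ℝ) ≤ M := by
      have : 1 ≤ M := by omega
      exact_mod_cast this
    have h5 : (1 : ℝ) ≤ (M : ℝ) ^ (5 / 6 : ℝ) := Real.one_le_rpow hMR (by norm_num)
    have h6 : (A : ℝ) ^ (5 / 6 : ℝ) ≤ 3 / 5 * (M : ℝ) ^ (5 / 6 : ℝ) := by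
      have e1 : (A : ℝ) ≤ 1 / 2 * M := by
        have : 2 * A ≤ M := by omega
        have e2 : (2 : ℝ) * A ≤ M := by exact_mod_cast this
        linarith
      have e3 : (1 / 2 : ℝ) ^ (5 / 6 : ℝ) ≤ 3 / 5 := by
        have e4 : ((1 / 2 : ℝ) ^ (5 / 6 : ℝ)) ^ (6 : ℕ) ≤ (3 / 5 : ℝ) ^ (6 : ℕ) := by
          rw [← Real.rpow_natCast, ← Real.rpow_mul (by norm_num)]
          norm_num
        exact le_of_pow_le_pow_left₀ (by norm_num) (by norm_num) e4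
      calc (A : ℝ) ^ (5 / 6 : ℝ) ≤ (1 / 2 * M) ^ (5 / 6 : ℝ) :=
            Real.rpow_le_rpow (by positivity) e1 (by norm_num)
        _ = (1 / 2 : ℝ) ^ (5 / 6 : ℝ) * (M : ℝ) ^ (5 / 6 : ℝ) :=
            Real.mul_rpow (by norm_num) (by positivity)
        _ ≤ 3 / 5 * (M : ℝ) ^ (5 / 6 : ℝ) := mul_le_mul_of_nonneg_right e3 (by positivity)
    linarith

open Classical in
theorem curveN : ∃ C : ℝ, 0 < C ∧ ∀ (D : ℕ) (k : ℤ) (N : ℕ), 1 ≤ D → 1 ≤ N → |k| ≤ 6 + N →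
    (((range (N + 1)).filter (fun X : ℕ => ∃ f : ℤ, (D : ℤ) * f ^ 2 = (X : ℤ) ^ 3 + k)).card : ℝ) ≤
      C * (N : ℝ) ^ (5 / 6 : ℝ) := by
  refine ⟨108, by norm_num, fun D k N hD hN hk => ?_⟩
  have h := dyadic hD hN hk N
  linarith

end Pool.Agent.FSol
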