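import Mathlib

/-!
# FSol, module Loc: local conditions

`X³ - 6 = y² (z² - 1)`, `z ∉ {-1, 0, 1}` or any `z`: `y` is odd and not divisible by `3`; `z` is even and `9 ∤ z² - 1`.
Paper proof. Modulo `8`: `X³ - 6` is `2` mod `8` for even `X` and odd for odd `X`, so it is not divisible by `4`; if `y` is even, `4` divides
it. If `z` is odd, `8 ∣ z² - 1`. Modulo `9`: cubes are `0, 1, 8`, so `X³ - 6` is `3, 4, 2` modulo `9`, never `0`: so `3 ∤ y` and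
`9 ∤ z² - 1`. (All by `decide` in `ZMod 8` and `ZMod 9` after casting.)
-/

namespace Pool.Agent.FSol

/-- Modulo `8`. -/
theorem loc8 : ∀ X y z : ZMod 8, X ^ 3 - 6 = y ^ 2 * (z ^ 2 - 1) → 4 * y ≠ 0 ∧ 4 * (z ^ 2 - 1) ≠ 0 := by
  decide

/-- Modulo `9`. -/
theorem loc9 : ∀ X w : ZMod 9, X ^ 3 - 6 = w → w ≠ 0 := by
  decide

theorem loc {X y z : ℤ} (h : X ^ 3 - 6 = y ^ 2 * (z ^ 2 - 1)) :
    ¬ (2 : ℤ) ∣ y ∧ ¬ (3 : ℤ) ∣ y ∧ ¬ (2 : ℤ) ∣ z ^ 2 - 1 ∧ ¬ (9 : ℤ) ∣ z ^ 2 - 1 := by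
  have h8 : ((X : ZMod 8)) ^ 3 - 6 = (y : ZMod 8) ^ 2 * ((z : ZMod 8) ^ 2 - 1) := by
    have := congrArg (Int.cast : ℤ → ZMod 8) h
    push_cast at this
    exact this
  have h9 : ((X : ZMod 9)) ^ 3 - 6 = (y : ZMod 9) ^ 2 * ((z : ZMod 9) ^ 2 - 1) := by
    have := congrArg (Int.cast : ℤ → ZMod 9) h
    push_cast at this
    exact this
  obtain ⟨h1, h2⟩ := loc8 _ _ _ h8
  have h3 := loc9 _ _ h9
  refine ⟨?_, ?_, ?_, ?_⟩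
  · rintro ⟨k, rfl⟩
    apply h1
    have e : ((4 : ZMod 8)) * ((2 * k : ℤ) : ZMod 8) = ((8 * k : ℤ) : ZMod 8) := by
      push_cast
      ring
    rw [e, ZMod.intCast_zmod_eq_zero_iff_dvd]
    exact ⟨k, by push_cast; ring⟩
  · rintro ⟨k, rfl⟩
    apply h3
    have e : ((3 * k : ℤ) : ZMod 9) ^ 2 * ((z : ZMod 9) ^ 2 - 1) =
        ((9 * (k ^ 2 * (z ^ 2 - 1)) : ℤ) : ZMod 9) := by
      push_cast
      ring
    rw [e, ZMod.intCast_zmod_eq_zero_iff_dvd]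
    exact ⟨_, rfl⟩
  · rintro ⟨k, hk⟩
    apply h2
    have e : ((4 : ZMod 8)) * ((z : ZMod 8) ^ 2 - 1) = ((4 * (z ^ 2 - 1) : ℤ) : ZMod 8) := by
      push_cast
      ring
    rw [e, ZMod.intCast_zmod_eq_zero_iff_dvd, hk]
    exact ⟨k, by push_cast; ring⟩
  · rintro ⟨k, hk⟩
    apply h3
    have e : ((y : ℤ) : ZMod 9) ^ 2 * ((z : ZMod 9) ^ 2 - 1) =
        ((y ^ 2 * (z ^ 2 - 1) : ℤ) : ZMod 9) := by
      push_cast
      ring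
    rw [e, ZMod.intCast_zmod_eq_zero_iff_dvd, hk]
    exact ⟨y ^ 2 * k, by push_cast; ring⟩

end Pool.Agent.FSol
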