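import Pool.Agent.FSol.SumY
import Pool.Agent.FSol.SumZ
import Pool.Agent.FSol.CurveN
import Pool.Agent.FSol.Loc
import Pool.Agent.FSol.Ari

/-!
# FSol, module Cnt: natural solutions

The triples `(X, y, z)` of naturals with `X³ = 6 + y² (z² - 1)`, `X ≤ N`, `y ≥ 1`, `z ≥ 2`. Let `P = ⌈N^(1/12)⌉`, `Q = ⌈N^(3/4)⌉`.
* `y ≤ P`: for each `y` the numbers `X` have a point `f = y z` on `f² = X³ + (y² - 6)` (`|y² - 6| ≤ 6 + N`), `z` is determined by `X, y`: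
  at most `P · C N^(5/6)` (`curveN`, `D = 1`).
* `z ≤ P + 1`: for each `z` the numbers `X` have a point `f = y` on `(z² - 1) f² = X³ - 6`; at most `(P + 1) C N^(5/6)`.
* `P < y ≤ Q`: `sumY`; `z` is determined by `(X, y)`: `C Q^ε (N/P + Q) ≤ C' N^ε N^(11/12)`.
* `y > Q`, `z > P + 1`: `Q⁴ ≥ N³`, so `z ≤ 2 Q`; `sumZ` with `(P, 2Q]`; `y` is determined by `(X, z)`.
-/

open Finset

namespace Pool.Agent.FSol

theorem zdet {X y z z' : ℤ} (hy : 1 ≤ y) (hz : 2 ≤ z) (hz' : 2 ≤ z') (h : X ^ 3 - 6 = y ^ 2 * (z ^ 2 - 1))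
    (h' : X ^ 3 - 6 = y ^ 2 * (z' ^ 2 - 1)) : z = z' := by
  have h1 : y ^ 2 * (z ^ 2 - 1) = y ^ 2 * (z' ^ 2 - 1) := by rw [← h, ← h']
  have h2 : z ^ 2 - 1 = z' ^ 2 - 1 := mul_left_cancel₀ (pow_ne_zero 2 (by omega)) h1
  have h3 : z ^ 2 = z' ^ 2 := by linarith
  have h4 : (z - z') * (z + z') = 0 := by linear_combination h3
  rcases mul_eq_zero.mp h4 with h5 | h5
  · omega
  · omega

theorem ydet {X y y' z : ℤ} (hy : 1 ≤ y) (hy' : 1 ≤ y') (hz : 2 ≤ z) (h : X ^ 3 - 6 = y ^ 2 * (z ^ 2 - 1))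
    (h' : X ^ 3 - 6 = y' ^ 2 * (z ^ 2 - 1)) : y = y' := by
  have h1 : y ^ 2 * (z ^ 2 - 1) = y' ^ 2 * (z ^ 2 - 1) := by rw [← h, ← h']
  have h0 : z ^ 2 - 1 ≠ 0 := by nlinarith
  have h3 : y ^ 2 = y' ^ 2 := mul_right_cancel₀ h0 h1
  have h4 : (y - y') * (y + y') = 0 := by linear_combination h3
  rcases mul_eq_zero.mp h4 with h5 | h5
  · omega
  · omega

theorem Pbound {N P : ℕ} (hN : 1 ≤ N) (hP : P = ⌈(N : ℝ) ^ (1 / 12 : ℝ)⌉₊) : P ^ 2 ≤ N + 12 := by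
  have hN1 : (1 : ℝ) ≤ N := by exact_mod_cast hN
  obtain ⟨x, hx⟩ : ∃ x : ℝ, x = (N : ℝ) ^ (1 / 12 : ℝ) := ⟨_, rfl⟩
  have hx1 : 1 ≤ x := by rw [hx]; exact Real.one_le_rpow hN1 (by norm_num)
  have h12 : (N : ℝ) = x ^ 12 := by
    rw [hx, ← Real.rpow_natCast, ← Real.rpow_mul (by linarith)]
    norm_num
  have hPx : (P : ℝ) ≤ x + 1 := by
    rw [hP, ← hx]
    exact (Nat.ceil_lt_add_one (by linarith)).le
  have h4 : x ^ 4 ≤ x ^ 12 := pow_le_pow_right₀ hx1 (by norm_num)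
  have h5 : (P : ℝ) ^ 2 ≤ (x + 1) ^ 2 := pow_le_pow_left₀ (Nat.cast_nonneg _) hPx 2
  have h6 : (x + 1) ^ 2 ≤ 4 * x ^ 2 := by nlinarith
  have h7 : 4 * x ^ 2 ≤ x ^ 4 + 4 := by nlinarith [sq_nonneg (x ^ 2 - 2)]
  have h8 : ((P ^ 2 : ℕ) : ℝ) ≤ ((N + 12 : ℕ) : ℝ) := by
    push_cast
    rw [h12]
    linarith
  exact_mod_cast h8

theorem Qbound {N Q : ℕ} (hQ : Q = ⌈(N : ℝ) ^ (3 / 4 : ℝ)⌉₊) : N ^ 3 ≤ Q ^ 4 := by
  have h1 : (N : ℝ) ^ (3 / 4 : ℝ) ≤ Q := by rw [hQ]; exact Nat.le_ceil _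
  have h2 : ((N : ℝ) ^ (3 / 4 : ℝ)) ^ 4 ≤ (Q : ℝ) ^ 4 :=
    pow_le_pow_left₀ (Real.rpow_nonneg (Nat.cast_nonneg _) _) h1 4
  have h3 : ((N : ℝ) ^ (3 / 4 : ℝ)) ^ 4 = (N : ℝ) ^ 3 := by
    rw [← Real.rpow_natCast, ← Real.rpow_mul (Nat.cast_nonneg _), ← Real.rpow_natCast]
    norm_num
  rw [h3] at h2
  exact_mod_cast h2

/-- fibers of size at most `B` over `m` values -/
theorem fib {T : Type*} [DecidableEq T] (S : Finset T) (g : T → ℕ) (a m : ℕ) (hg : ∀ t ∈ S, g t ∈ Icc a m)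
    (B : ℝ) (hB : ∀ y ∈ Icc a m, ((S.filter fun t => g t = y).card : ℝ) ≤ B) :
    (S.card : ℝ) ≤ ((m + 1 - a : ℕ) : ℝ) * B := by
  have h1 := Finset.card_eq_sum_card_fiberwise (f := g) (s := S) (t := Icc a m) (fun t ht => hg t ht)
  rw [h1, Nat.cast_sum]
  have h2 := Finset.sum_le_card_nsmul (Icc a m) (fun y => ((S.filter fun t => g t = y).card : ℝ)) B hB
  rw [nsmul_eq_mul, Nat.card_Icc] at h2
  exact h2

theorem cnt {ε : ℝ} (hε : 0 < ε) : ∃ C : ℝ, 0 < C ∧ ∀ N : ℕ, 1 ≤ N → ∀ S : Finset (ℕ × ℕ × ℕ),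
    (∀ t ∈ S, t.1 ≤ N ∧ 1 ≤ t.2.1 ∧ 2 ≤ t.2.2 ∧
      (t.1 : ℤ) ^ 3 - 6 = (t.2.1 : ℤ) ^ 2 * ((t.2.2 : ℤ) ^ 2 - 1)) →
    (S.card : ℝ) ≤ C * (N : ℝ) ^ (11 / 12 + ε : ℝ) := by
  classical
  obtain ⟨C₁, hC₁, curve⟩ := curveN
  obtain ⟨C₂, hC₂, sY⟩ := sumY hε
  obtain ⟨C₃, hC₃, sZ⟩ := sumZ hε
  obtain ⟨C, hC, har⟩ := ari hε hC₁.le hC₂.le hC₃.le
  refine ⟨C, hC, ?_⟩
  intro N hN S hS
  obtain ⟨P, hP⟩ : ∃ P : ℕ, P = ⌈(N : ℝ) ^ (1 / 12 : ℝ)⌉₊ := ⟨_, rfl⟩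
  obtain ⟨Q, hQ⟩ : ∃ Q : ℕ, Q = ⌈(N : ℝ) ^ (3 / 4 : ℝ)⌉₊ := ⟨_, rfl⟩
  obtain ⟨hP1, hQ1, hfin⟩ := har N P Q hN hP hQ
  have hP2 := Pbound hN hP
  have hQ2 := Qbound hQ
  refine le_trans ?_ hfin
  have hcover : S ⊆ ((S.filter fun t => t.2.1 ≤ P) ∪ (S.filter fun t => t.2.2 ≤ P + 1)) ∪
      ((S.filter fun t => P < t.2.1 ∧ t.2.1 ≤ Q) ∪ (S.filter fun t => Q < t.2.1 ∧ P + 1 < t.2.2)) := by
    intro t ht
    simp only [Finset.mem_union, Finset.mem_filter, ht, true_and]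
    omega
  have c0 : S.card ≤ ((S.filter fun t => t.2.1 ≤ P).card + (S.filter fun t => t.2.2 ≤ P + 1).card) +
      ((S.filter fun t => P < t.2.1 ∧ t.2.1 ≤ Q).card + (S.filter fun t => Q < t.2.1 ∧ P + 1 < t.2.2).card) :=
    (Finset.card_le_card hcover).trans ((Finset.card_union_le _ _).trans
      (Nat.add_le_add (Finset.card_union_le _ _) (Finset.card_union_le _ _)))
  have c0' : (S.card : ℝ) ≤ (((S.filter fun t => t.2.1 ≤ P).card : ℝ) + (S.filter fun t => t.2.2 ≤ P + 1).card) +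
      ((S.filter fun t => P < t.2.1 ∧ t.2.1 ≤ Q).card + (S.filter fun t => Q < t.2.1 ∧ P + 1 < t.2.2).card) := by
    exact_mod_cast c0
  -- `y ≤ P`
  have c1 : ((S.filter fun t => t.2.1 ≤ P).card : ℝ) ≤ (P : ℝ) * (C₁ * (N : ℝ) ^ (5 / 6 : ℝ)) := by
    have h := fib (S.filter fun t => t.2.1 ≤ P) (fun t => t.2.1) 1 P (by
      intro t ht
      obtain ⟨ht1, ht2⟩ := Finset.mem_filter.mp ht
      obtain ⟨h1, h2, h3, h4⟩ := hS t ht1
      exact Finset.mem_Icc.mpr ⟨h2, ht2⟩) (C₁ * (N : ℝ) ^ (5 / 6 : ℝ)) (by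
      intro y hy
      obtain ⟨hy1, hyP⟩ := Finset.mem_Icc.mp hy
      have hk : |((y : ℤ) ^ 2 - 6 : ℤ)| ≤ 6 + (N : ℤ) := by
        have e1 : y ^ 2 ≤ P ^ 2 := Nat.pow_le_pow_left hyP 2
        have e2 : (y : ℤ) ^ 2 ≤ N + 12 := by exact_mod_cast e1.trans hP2
        have e3 : 0 ≤ (y : ℤ) ^ 2 := sq_nonneg _
        rw [abs_le]
        constructor <;> linarith
      refine le_trans ?_ (curve 1 ((y : ℤ) ^ 2 - 6) N le_rfl hN hk)
      rw [Nat.cast_le]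
      apply Finset.card_le_card_of_injOn (fun t => t.1)
      · intro t ht
        obtain ⟨ht0, hty⟩ := Finset.mem_filter.mp (Finset.mem_coe.mp ht)
        obtain ⟨ht1, ht2⟩ := Finset.mem_filter.mp ht0
        obtain ⟨h1, h2, h3, h4⟩ := hS t ht1
        refine Finset.mem_coe.mpr (Finset.mem_filter.mpr ⟨Finset.mem_range.mpr (by show t.1 < N + 1; omega), ?_⟩)
        refine ⟨(y : ℤ) * t.2.2, ?_⟩
        have hty : t.2.1 = y := hty
        rw [hty] at h4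
        push_cast
        linear_combination -h4
      · intro t ht t' ht' hh
        obtain ⟨ht0, hty⟩ := Finset.mem_filter.mp (Finset.mem_coe.mp ht)
        obtain ⟨ht1, ht2⟩ := Finset.mem_filter.mp ht0
        obtain ⟨h1, h2, h3, h4⟩ := hS t ht1
        obtain ⟨ht0', hty'⟩ := Finset.mem_filter.mp (Finset.mem_coe.mp ht')
        obtain ⟨ht1', ht2'⟩ := Finset.mem_filter.mp ht0'
        obtain ⟨h1', h2', h3', h4'⟩ := hS t' ht1'
        have hX : t.1 = t'.1 := hh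
        have hY : t.2.1 = t'.2.1 := by
          have a1 : t.2.1 = y := hty
          have a2 : t'.2.1 = y := hty'
          rw [a1, a2]
        rw [← hX, ← hY] at h4'
        have hZ := zdet (by exact_mod_cast h2) (by exact_mod_cast h3) (by exact_mod_cast h3') h4 h4'
        exact Prod.ext hX (Prod.ext hY (by exact_mod_cast hZ)))
    simpa using h
  -- `z ≤ P + 1`
  have c2 : ((S.filter fun t => t.2.2 ≤ P + 1).card : ℝ) ≤ ((P : ℝ) + 1) * (C₁ * (N : ℝ) ^ (5 / 6 : ℝ)) := by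
    have h := fib (S.filter fun t => t.2.2 ≤ P + 1) (fun t => t.2.2) 1 (P + 1) (by
      intro t ht
      obtain ⟨ht1, ht2⟩ := Finset.mem_filter.mp ht
      obtain ⟨h1, h2, h3, h4⟩ := hS t ht1
      exact Finset.mem_Icc.mpr ⟨by omega, ht2⟩) (C₁ * (N : ℝ) ^ (5 / 6 : ℝ)) (by
      intro z hz
      obtain ⟨hz1, hzP⟩ := Finset.mem_Icc.mp hz
      rcases Nat.lt_or_ge z 2 with hz2 | hz2
      · have he : ((S.filter fun t => t.2.2 ≤ P + 1).filter fun t => t.2.2 = z) = ∅ := by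
          rw [Finset.filter_eq_empty_iff]
          intro t ht h
          obtain ⟨ht1, ht2⟩ := Finset.mem_filter.mp ht
          obtain ⟨h1, h2, h3, h4⟩ := hS t ht1
          omega
        rw [he]
        simp only [Finset.card_empty, Nat.cast_zero]
        positivity
      have hk : |(-6 : ℤ)| ≤ 6 + (N : ℤ) := by
        norm_num
      have hD : 1 ≤ z ^ 2 - 1 := by
        have : 2 ^ 2 ≤ z ^ 2 := Nat.pow_le_pow_left hz2 2
        omega
      refine le_trans ?_ (curve (z ^ 2 - 1) (-6) N hD hN hk)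
      rw [Nat.cast_le]
      apply Finset.card_le_card_of_injOn (fun t => t.1)
      · intro t ht
        obtain ⟨ht0, htz⟩ := Finset.mem_filter.mp (Finset.mem_coe.mp ht)
        obtain ⟨ht1, ht2⟩ := Finset.mem_filter.mp ht0
        obtain ⟨h1, h2, h3, h4⟩ := hS t ht1
        refine Finset.mem_coe.mpr (Finset.mem_filter.mpr ⟨Finset.mem_range.mpr (by show t.1 < N + 1; omega), ?_⟩)
        refine ⟨(t.2.1 : ℤ), ?_⟩
        have htz : t.2.2 = z := htz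
        rw [htz] at h4
        have e : ((z ^ 2 - 1 : ℕ) : ℤ) = (z : ℤ) ^ 2 - 1 := by
          rw [Nat.cast_sub (by omega)]
          push_cast
          ring
        rw [e]
        linear_combination -h4
      · intro t ht t' ht' hh
        obtain ⟨ht0, htz⟩ := Finset.mem_filter.mp (Finset.mem_coe.mp ht)
        obtain ⟨ht1, ht2⟩ := Finset.mem_filter.mp ht0
        obtain ⟨h1, h2, h3, h4⟩ := hS t ht1
        obtain ⟨ht0', htz'⟩ := Finset.mem_filter.mp (Finset.mem_coe.mp ht')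
        obtain ⟨ht1', ht2'⟩ := Finset.mem_filter.mp ht0'
        obtain ⟨h1', h2', h3', h4'⟩ := hS t' ht1'
        have hX : t.1 = t'.1 := hh
        have hZ : t.2.2 = t'.2.2 := by
          have a1 : t.2.2 = z := htz
          have a2 : t'.2.2 = z := htz'
          rw [a1, a2]
        rw [← hX, ← hZ] at h4'
        have hY := ydet (by exact_mod_cast h2) (by exact_mod_cast h2') (by exact_mod_cast h3) h4 h4'
        exact Prod.ext hX (Prod.ext (by exact_mod_cast hY) hZ))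
    simpa using h
  -- `P < y ≤ Q`
  have c3 : ((S.filter fun t => P < t.2.1 ∧ t.2.1 ≤ Q).card : ℝ) ≤ C₂ * (Q : ℝ) ^ ε * ((N : ℝ) / P + Q) := by
    refine le_trans ?_ (sY N P Q hP1 hN hQ1)
    rw [Nat.cast_le]
    apply Finset.card_le_card_of_injOn (fun t => (t.1, t.2.1))
    · intro t ht
      obtain ⟨ht1, ht2⟩ := Finset.mem_filter.mp (Finset.mem_coe.mp ht)
      obtain ⟨h1, h2, h3, h4⟩ := hS t ht1
      obtain ⟨l1, l2, -, -⟩ := loc h4
      refine Finset.mem_coe.mpr (Finset.mem_filter.mpr ⟨Finset.mem_product.mpr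
        ⟨Finset.mem_range.mpr (by simp only; omega), Finset.mem_Ioc.mpr ht2⟩, ?_, ?_, ?_⟩)
      · intro h
        exact l1 (by exact_mod_cast h)
      · intro h
        exact l2 (by exact_mod_cast h)
      · simp only
        rw [h4]
        push_cast
        exact Dvd.intro _ rfl
    · intro t ht t' ht' hh
      obtain ⟨ht1, -⟩ := Finset.mem_filter.mp (Finset.mem_coe.mp ht)
      obtain ⟨h1, h2, h3, h4⟩ := hS t ht1
      obtain ⟨ht1', -⟩ := Finset.mem_filter.mp (Finset.mem_coe.mp ht')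
      obtain ⟨h1', h2', h3', h4'⟩ := hS t' ht1'
      have hX : t.1 = t'.1 := (Prod.ext_iff.mp hh).1
      have hY : t.2.1 = t'.2.1 := (Prod.ext_iff.mp hh).2
      rw [← hX, ← hY] at h4'
      have hZ := zdet (by exact_mod_cast h2) (by exact_mod_cast h3) (by exact_mod_cast h3') h4 h4'
      exact Prod.ext hX (Prod.ext hY (by exact_mod_cast hZ))
  -- `y > Q`, `z > P + 1`
  have c4 : ((S.filter fun t => Q < t.2.1 ∧ P + 1 < t.2.2).card : ℝ) ≤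
      C₃ * ((2 * Q : ℕ) : ℝ) ^ ε * ((N : ℝ) / P + ((2 * Q : ℕ) : ℝ)) := by
    refine le_trans ?_ (sZ N P (2 * Q) hP1 hN (by omega))
    rw [Nat.cast_le]
    apply Finset.card_le_card_of_injOn (fun t => (t.1, t.2.2))
    · intro t ht
      obtain ⟨ht1, ht2, ht3⟩ := Finset.mem_filter.mp (Finset.mem_coe.mp ht)
      obtain ⟨h1, h2, h3, h4⟩ := hS t ht1
      obtain ⟨-, -, l3, l4⟩ := loc h4
      have hz1 : 1 ≤ t.2.2 ^ 2 := Nat.one_le_pow _ _ (by omega)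
      have e : ((t.2.2 ^ 2 - 1 : ℕ) : ℤ) = (t.2.2 : ℤ) ^ 2 - 1 := by
        rw [Nat.cast_sub hz1]
        push_cast
        ring
      have hzQ : t.2.2 ≤ 2 * Q := by
        by_contra hcon
        have k1 : (2 * (Q : ℤ) + 1) ≤ t.2.2 := by exact_mod_cast not_le.mp hcon
        have k2 : ((Q : ℤ) + 1) ≤ t.2.1 := by exact_mod_cast ht2
        have k3 : (N : ℤ) ^ 3 ≤ (Q : ℤ) ^ 4 := by exact_mod_cast hQ2
        have k4 : (t.1 : ℤ) ^ 3 ≤ (N : ℤ) ^ 3 := pow_le_pow_left₀ (by positivity) (by exact_mod_cast h1) 3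
        have k5 : (0 : ℤ) ≤ Q := by positivity
        have k6 : (Q : ℤ) ^ 2 ≤ (t.2.1 : ℤ) ^ 2 := pow_le_pow_left₀ k5 (by omega) 2
        have k7 : (Q : ℤ) ^ 2 ≤ (t.2.2 : ℤ) ^ 2 - 1 := by nlinarith
        have k8 : (Q : ℤ) ^ 2 * (Q : ℤ) ^ 2 ≤ (t.2.1 : ℤ) ^ 2 * ((t.2.2 : ℤ) ^ 2 - 1) :=
          mul_le_mul k6 k7 (by positivity) (by positivity)
        have k9 : (Q : ℤ) ^ 2 * (Q : ℤ) ^ 2 = (Q : ℤ) ^ 4 := by ring
        linarith
      refine Finset.mem_coe.mpr (Finset.mem_filter.mpr ⟨Finset.mem_product.mpr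
        ⟨Finset.mem_range.mpr (by simp only; omega), Finset.mem_Ioc.mpr ⟨by simp only; omega, hzQ⟩⟩, ?_, ?_, ?_⟩)
      · intro h
        exact l3 (by rw [← e]; exact_mod_cast h)
      · intro h
        exact l4 (by rw [← e]; exact_mod_cast h)
      · simp only
        rw [h4, e]
        exact Dvd.intro_left _ rfl
    · intro t ht t' ht' hh
      obtain ⟨ht1, -⟩ := Finset.mem_filter.mp (Finset.mem_coe.mp ht)
      obtain ⟨h1, h2, h3, h4⟩ := hS t ht1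
      obtain ⟨ht1', -⟩ := Finset.mem_filter.mp (Finset.mem_coe.mp ht')
      obtain ⟨h1', h2', h3', h4'⟩ := hS t' ht1'
      have hX : t.1 = t'.1 := (Prod.ext_iff.mp hh).1
      have hZ : t.2.2 = t'.2.2 := (Prod.ext_iff.mp hh).2
      rw [← hX, ← hZ] at h4'
      have hY := ydet (by exact_mod_cast h2) (by exact_mod_cast h2') (by exact_mod_cast h3) h4 h4'
      exact Prod.ext hX (Prod.ext (by exact_mod_cast hY) hZ)
  linarith

end Pool.Agent.FSol
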