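import Mathlib

/-!
# FSol, module Curve: integer points on `D f² = X³ + k`

Four points are not on a line; the second divided difference of `f` is `O(A^(-1/2))`; a window of length `c A^(1/6)` has at most three points.
-/

open Finset

namespace Pool.Agent.FSol

theorem key_id {D x1 x2 x3 f1 f2 f3 k : ℝ} (e1 : D * f1 ^ 2 = x1 ^ 3 + k) (e2 : D * f2 ^ 2 = x2 ^ 3 + k)
    (e3 : D * f3 ^ 2 = x3 ^ 3 + k) :
    D ^ 2 * (f1 + f2) * (f1 + f3) * (f2 + f3) * ((x2 - x1) * (f3 - f1) - (x3 - x1) * (f2 - f1)) =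
      ((x2 - x1) * (x3 - x1) * (x3 - x2)) * ((x1 + x2 + x3) * (D * (f1 + f2) * (f2 + f3)) -
        (x1 ^ 2 + x1 * x2 + x2 ^ 2) * (x2 ^ 2 + x2 * x3 + x3 ^ 2)) := by
  have e12 : D * (f2 - f1) * (f1 + f2) = (x2 - x1) * (x1 ^ 2 + x1 * x2 + x2 ^ 2) := by
    linear_combination e2 - e1
  have e13 : D * (f3 - f1) * (f1 + f3) = (x3 - x1) * (x1 ^ 2 + x1 * x3 + x3 ^ 2) := by
    linear_combination e3 - e1
  have e23 : D * (f3 - f2) * (f2 + f3) = (x3 - x2) * (x2 ^ 2 + x2 * x3 + x3 ^ 2) := by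
    linear_combination e3 - e2
  linear_combination (D * (f1 + f2) * (f2 + f3) * (x2 - x1)) * e13 -
    (D * (f1 + f3) * (f2 + f3) * (x3 - x1)) * e12 -
    ((x2 - x1) * (x3 - x1) * (x1 ^ 2 + x1 * x2 + x2 ^ 2)) * e23

theorem f_lower {D x f k t r : ℝ} (ht : 0 < t) (hr : 1 ≤ r) (hD : D = r ^ 2) (hx : t ^ 2 ≤ x)
    (hk : 2 * |k| ≤ (t ^ 2) ^ 3) (hf : 0 ≤ f) (e : D * f ^ 2 = x ^ 3 + k) : 7 / 10 * t ^ 3 ≤ r * f := by
  have h1 : (t ^ 2) ^ 3 ≤ x ^ 3 := pow_le_pow_left₀ (by positivity) hx 3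
  have h2 := neg_abs_le k
  have h3 : (7 / 10 * t ^ 3) ^ 2 ≤ (r * f) ^ 2 := by
    have h4 : (r * f) ^ 2 = x ^ 3 + k := by
      rw [← e, hD]
      ring
    rw [h4]
    have h5 : 0 ≤ t ^ 6 := by positivity
    nlinarith
  exact le_of_sq_le_sq h3 (by positivity)

theorem delta_zero {D k A H x1 x2 x3 f1 f2 f3 : ℤ} (hD : 1 ≤ D) (hA : 1 ≤ A) (hk : 2 * |k| ≤ A ^ 3)
    (hH0 : 0 ≤ H) (hH : (1000 * H ^ 3) ^ 2 ≤ A) (h1 : A < x1) (h12 : x1 < x2) (h23 : x2 < x3)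
    (h3 : x3 ≤ 2 * A) (hx : x3 - x1 ≤ H) (hf1 : 0 ≤ f1) (hf2 : 0 ≤ f2) (hf3 : 0 ≤ f3)
    (e1 : D * f1 ^ 2 = x1 ^ 3 + k) (e2 : D * f2 ^ 2 = x2 ^ 3 + k) (e3 : D * f3 ^ 2 = x3 ^ 3 + k) :
    (x2 - x1) * (f3 - f1) - (x3 - x1) * (f2 - f1) = 0 := by
  by_contra hne
  have hA' : (1 : ℝ) ≤ A := by exact_mod_cast hA
  have hD' : (1 : ℝ) ≤ D := by exact_mod_cast hD
  obtain ⟨t, ht⟩ : ∃ t : ℝ, t = Real.sqrt A := ⟨_, rfl⟩
  obtain ⟨r, hr⟩ : ∃ r : ℝ, r = Real.sqrt D := ⟨_, rfl⟩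
  have ht2 : t ^ 2 = A := by rw [ht, Real.sq_sqrt (by linarith)]
  have hr2 : (D : ℝ) = r ^ 2 := by rw [hr, Real.sq_sqrt (by linarith)]
  have ht1 : 1 ≤ t := by
    rw [ht]
    exact Real.one_le_sqrt.2 hA'
  have hr1 : 1 ≤ r := by
    rw [hr]
    exact Real.one_le_sqrt.2 hD'
  have ht0 : 0 < t := by linarith
  have hkR : 2 * |(k : ℝ)| ≤ (t ^ 2) ^ 3 := by
    rw [ht2]
    exact_mod_cast hk
  have e1' : (D : ℝ) * (f1 : ℝ) ^ 2 = (x1 : ℝ) ^ 3 + k := by exact_mod_cast e1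
  have e2' : (D : ℝ) * (f2 : ℝ) ^ 2 = (x2 : ℝ) ^ 3 + k := by exact_mod_cast e2
  have e3' : (D : ℝ) * (f3 : ℝ) ^ 2 = (x3 : ℝ) ^ 3 + k := by exact_mod_cast e3
  have x1A : t ^ 2 ≤ (x1 : ℝ) := by
    rw [ht2]
    exact_mod_cast h1.le
  have x2A : t ^ 2 ≤ (x2 : ℝ) := by
    rw [ht2]
    exact_mod_cast (by omega : A ≤ x2)
  have x3A : t ^ 2 ≤ (x3 : ℝ) := by
    rw [ht2]
    exact_mod_cast (by omega : A ≤ x3)
  have x1B : (x1 : ℝ) ≤ 2 * t ^ 2 := by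
    rw [ht2]
    exact_mod_cast (by omega : x1 ≤ 2 * A)
  have x2B : (x2 : ℝ) ≤ 2 * t ^ 2 := by
    rw [ht2]
    exact_mod_cast (by omega : x2 ≤ 2 * A)
  have x3B : (x3 : ℝ) ≤ 2 * t ^ 2 := by
    rw [ht2]
    exact_mod_cast (by omega : x3 ≤ 2 * A)
  have F1 := f_lower ht0 hr1 hr2 x1A hkR (by exact_mod_cast hf1) e1'
  have F2 := f_lower ht0 hr1 hr2 x2A hkR (by exact_mod_cast hf2) e2'
  have F3 := f_lower ht0 hr1 hr2 x3A hkR (by exact_mod_cast hf3) e3'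
  have hH' : 1000 * (H : ℝ) ^ 3 ≤ t := by
    have h4 : (1000 * (H : ℝ) ^ 3) ^ 2 ≤ t ^ 2 := by
      rw [ht2]
      exact_mod_cast hH
    exact le_of_sq_le_sq h4 ht0.le
  have hH0' : (0 : ℝ) ≤ H := by exact_mod_cast hH0
  obtain ⟨P, hP⟩ : ∃ P : ℝ, P = ((x2 : ℝ) - x1) * (x3 - x1) * (x3 - x2) := ⟨_, rfl⟩
  have hP0 : 0 ≤ P := by
    rw [hP]
    have a1 : (0 : ℝ) ≤ x2 - x1 := by
      have : (x1 : ℝ) ≤ x2 := by exact_mod_cast h12.le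
      linarith
    have a2 : (0 : ℝ) ≤ x3 - x1 := by
      have : (x1 : ℝ) ≤ x3 := by exact_mod_cast (by omega : x1 ≤ x3)
      linarith
    have a3 : (0 : ℝ) ≤ x3 - x2 := by
      have : (x2 : ℝ) ≤ x3 := by exact_mod_cast h23.le
      linarith
    positivity
  have hPH : P ≤ (H : ℝ) ^ 3 := by
    have a1 : (0 : ℝ) ≤ (x2 : ℝ) - x1 := by
      have : (x1 : ℝ) ≤ x2 := by exact_mod_cast h12.le
      linarith
    have a2 : (0 : ℝ) ≤ (x3 : ℝ) - x1 := by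
      have : (x1 : ℝ) ≤ x3 := by exact_mod_cast (by omega : x1 ≤ x3)
      linarith
    have a3 : (0 : ℝ) ≤ (x3 : ℝ) - x2 := by
      have : (x2 : ℝ) ≤ x3 := by exact_mod_cast h23.le
      linarith
    have b1 : (x2 : ℝ) - x1 ≤ H := by exact_mod_cast (by omega : x2 - x1 ≤ H)
    have b2 : (x3 : ℝ) - x1 ≤ H := by exact_mod_cast hx
    have b3 : (x3 : ℝ) - x2 ≤ H := by exact_mod_cast (by omega : x3 - x2 ≤ H)
    calc P = ((x2 : ℝ) - x1) * (x3 - x1) * (x3 - x2) := hP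
      _ ≤ H * H * H := mul_le_mul (mul_le_mul b1 b2 a2 hH0') b3 a3 (by positivity)
      _ = (H : ℝ) ^ 3 := by ring
  have hPt : 1000 * P ≤ t := by linarith
  have id := key_id e1' e2' e3'
  rw [← hP] at id
  obtain ⟨Δ, hΔ⟩ : ∃ Δ : ℤ, Δ = (x2 - x1) * (f3 - f1) - (x3 - x1) * (f2 - f1) := ⟨_, rfl⟩
  have hΔR : ((x2 : ℝ) - x1) * (f3 - f1) - (x3 - x1) * (f2 - f1) = (Δ : ℝ) := by
    rw [hΔ]
    push_cast
    ring
  rw [hΔR] at id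
  -- scaled sums
  obtain ⟨s12, hs12⟩ : ∃ s : ℝ, s = r * (f1 + f2) := ⟨_, rfl⟩
  obtain ⟨s13, hs13⟩ : ∃ s : ℝ, s = r * (f1 + f3) := ⟨_, rfl⟩
  obtain ⟨s23, hs23⟩ : ∃ s : ℝ, s = r * (f2 + f3) := ⟨_, rfl⟩
  have S12 : 7 / 5 * t ^ 3 ≤ s12 := by rw [hs12]; linarith
  have S13 : 7 / 5 * t ^ 3 ≤ s13 := by rw [hs13]; linarith
  have S23 : 7 / 5 * t ^ 3 ≤ s23 := by rw [hs23]; linarith
  have ht3 : 0 < t ^ 3 := by positivity
  have p12 : 0 < s12 := by linarith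
  have p13 : 0 < s13 := by linarith
  have p23 : 0 < s23 := by linarith
  -- `id` times `1 / r`: `r * s12 * s13 * s23 * Δ = P * (Σ * (s12 * s23) - q q')`
  have id2 : r * s12 * s13 * s23 * (Δ : ℝ) = P * (((x1 : ℝ) + x2 + x3) * (s12 * s23) -
      ((x1 : ℝ) ^ 2 + x1 * x2 + x2 ^ 2) * ((x2 : ℝ) ^ 2 + x2 * x3 + x3 ^ 2)) := by
    rw [hs12, hs13, hs23]
    rw [hr2] at id
    linear_combination id
  rcases lt_trichotomy Δ 0 with h | h | h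
  · -- negative
    have hneg : (Δ : ℝ) ≤ -1 := by exact_mod_cast (by omega : Δ ≤ -1)
    have x1p : (0 : ℝ) ≤ x1 := le_trans (by positivity) x1A
    have x2p : (0 : ℝ) ≤ x2 := le_trans (by positivity) x2A
    have x3p : (0 : ℝ) ≤ x3 := le_trans (by positivity) x3A
    have q1 : (x1 : ℝ) ^ 2 + x1 * x2 + x2 ^ 2 ≤ 12 * t ^ 4 := by
      have a1 : (x1 : ℝ) ^ 2 ≤ (2 * t ^ 2) ^ 2 := pow_le_pow_left₀ x1p x1B 2
      have a2 : (x2 : ℝ) ^ 2 ≤ (2 * t ^ 2) ^ 2 := pow_le_pow_left₀ x2p x2B 2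
      have a3 : (x1 : ℝ) * x2 ≤ (2 * t ^ 2) * (2 * t ^ 2) := mul_le_mul x1B x2B x2p (by positivity)
      linarith [a1, a2, a3, (by ring : (2 * t ^ 2) ^ 2 = 4 * t ^ 4), (by ring : (2 * t ^ 2) * (2 * t ^ 2) = 4 * t ^ 4)]
    have q2 : (x2 : ℝ) ^ 2 + x2 * x3 + x3 ^ 2 ≤ 12 * t ^ 4 := by
      have a1 : (x2 : ℝ) ^ 2 ≤ (2 * t ^ 2) ^ 2 := pow_le_pow_left₀ x2p x2B 2
      have a2 : (x3 : ℝ) ^ 2 ≤ (2 * t ^ 2) ^ 2 := pow_le_pow_left₀ x3p x3B 2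
      have a3 : (x2 : ℝ) * x3 ≤ (2 * t ^ 2) * (2 * t ^ 2) := mul_le_mul x2B x3B x3p (by positivity)
      linarith [a1, a2, a3, (by ring : (2 * t ^ 2) ^ 2 = 4 * t ^ 4), (by ring : (2 * t ^ 2) * (2 * t ^ 2) = 4 * t ^ 4)]
    have q20 : 0 ≤ (x2 : ℝ) ^ 2 + x2 * x3 + x3 ^ 2 := by positivity
    have qq : ((x1 : ℝ) ^ 2 + x1 * x2 + x2 ^ 2) * ((x2 : ℝ) ^ 2 + x2 * x3 + x3 ^ 2) ≤ 144 * t ^ 8 := by
      calc ((x1 : ℝ) ^ 2 + x1 * x2 + x2 ^ 2) * ((x2 : ℝ) ^ 2 + x2 * x3 + x3 ^ 2)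
          ≤ (12 * t ^ 4) * (12 * t ^ 4) := mul_le_mul q1 q2 q20 (by positivity)
        _ = 144 * t ^ 8 := by ring
    have lhs : r * s12 * s13 * s23 ≤ P * (144 * t ^ 8) := by
      have a1 : 0 ≤ P * (((x1 : ℝ) + x2 + x3) * (s12 * s23)) := by positivity
      have a2 : P * (((x1 : ℝ) ^ 2 + x1 * x2 + x2 ^ 2) * ((x2 : ℝ) ^ 2 + x2 * x3 + x3 ^ 2)) ≤
          P * (144 * t ^ 8) := mul_le_mul_of_nonneg_left qq hP0
      have a3 : 0 ≤ r * s12 * s13 * s23 := by positivity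
      have a4 : r * s12 * s13 * s23 ≤ r * s12 * s13 * s23 * (-(Δ : ℝ)) := by
        nlinarith
      nlinarith
    have lhs2 : (7 / 5 * t ^ 3) * (7 / 5 * t ^ 3) * (7 / 5 * t ^ 3) ≤ r * s12 * s13 * s23 := by
      have a1 : (7 / 5 * t ^ 3) * (7 / 5 * t ^ 3) * (7 / 5 * t ^ 3) ≤ s12 * s13 * s23 :=
        mul_le_mul (mul_le_mul S12 S13 (by positivity) p12.le) S23 (by positivity) (by positivity)
      have a2 : s12 * s13 * s23 ≤ r * (s12 * s13 * s23) := le_mul_of_one_le_left (by positivity) hr1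
      linarith
    have h9 : P * (144 * t ^ 8) ≤ 144 / 1000 * t ^ 9 := by
      have a1 : 1000 * P * t ^ 8 ≤ t * t ^ 8 := mul_le_mul_of_nonneg_right hPt (by positivity)
      linarith [a1, (by ring : t * t ^ 8 = t ^ 9), (by ring : P * (144 * t ^ 8) = 144 / 1000 * (1000 * P * t ^ 8))]
    have h10 : (7 / 5 * t ^ 3) * (7 / 5 * t ^ 3) * (7 / 5 * t ^ 3) = 343 / 125 * t ^ 9 := by ring
    have h11 : 0 < t ^ 9 := by positivity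
    linarith
  · exact hne (by rw [← hΔ]; exact h)
  · -- positive
    have hpos : (1 : ℝ) ≤ Δ := by exact_mod_cast (by omega : 1 ≤ Δ)
    have x1p : (0 : ℝ) ≤ x1 := le_trans (by positivity) x1A
    have x2p : (0 : ℝ) ≤ x2 := le_trans (by positivity) x2A
    have x3p : (0 : ℝ) ≤ x3 := le_trans (by positivity) x3A
    have a1 : r * s12 * s13 * s23 ≤ P * ((6 * t ^ 2) * (s12 * s23)) := by
      have b1 : r * s12 * s13 * s23 ≤ r * s12 * s13 * s23 * (Δ : ℝ) :=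
        le_mul_of_one_le_right (by positivity) hpos
      have b2 : 0 ≤ P * (((x1 : ℝ) ^ 2 + x1 * x2 + x2 ^ 2) * ((x2 : ℝ) ^ 2 + x2 * x3 + x3 ^ 2)) := by
        positivity
      have b3 : P * (((x1 : ℝ) + x2 + x3) * (s12 * s23)) ≤ P * ((6 * t ^ 2) * (s12 * s23)) := by
        refine mul_le_mul_of_nonneg_left (mul_le_mul_of_nonneg_right ?_ (by positivity)) hP0
        linarith
      linarith
    have a2 : r * s13 ≤ P * (6 * t ^ 2) := by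
      have b1 : (r * s13) * (s12 * s23) ≤ (P * (6 * t ^ 2)) * (s12 * s23) := by linarith
      exact le_of_mul_le_mul_right b1 (by positivity)
    have a3 : s13 ≤ r * s13 := le_mul_of_one_le_left p13.le hr1
    have a4 : 1000 * P * t ^ 2 ≤ t * t ^ 2 := mul_le_mul_of_nonneg_right hPt (by positivity)
    have a5 : t * t ^ 2 = t ^ 3 := by ring
    have a6 : P * (6 * t ^ 2) = 6 / 1000 * (1000 * P * t ^ 2) := by ring
    linarith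

theorem no_four {D k x1 x2 x3 x4 f1 f2 f3 f4 : ℤ} (h12 : x1 < x2) (h23 : x2 < x3) (h34 : x3 < x4)
    (e1 : D * f1 ^ 2 = x1 ^ 3 + k) (e2 : D * f2 ^ 2 = x2 ^ 3 + k) (e3 : D * f3 ^ 2 = x3 ^ 3 + k)
    (e4 : D * f4 ^ 2 = x4 ^ 3 + k) (d3 : (x2 - x1) * (f3 - f1) - (x3 - x1) * (f2 - f1) = 0)
    (d4 : (x2 - x1) * (f4 - f1) - (x4 - x1) * (f2 - f1) = 0) : False := by
  obtain ⟨u, hu⟩ : ∃ u : ℤ, u = x2 - x1 := ⟨_, rfl⟩
  obtain ⟨v, hv⟩ : ∃ v : ℤ, v = f2 - f1 := ⟨_, rfl⟩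
  have g1 : D * (u * f1 + v * (x1 - x1)) ^ 2 = u ^ 2 * (x1 ^ 3 + k) := by
    rw [← e1]
    ring
  have g2 : D * (u * f1 + v * (x2 - x1)) ^ 2 = u ^ 2 * (x2 ^ 3 + k) := by
    have : u * f1 + v * (x2 - x1) = u * f2 := by
      rw [hu, hv]
      ring
    rw [this, ← e2]
    ring
  have g3 : D * (u * f1 + v * (x3 - x1)) ^ 2 = u ^ 2 * (x3 ^ 3 + k) := by
    have : u * f1 + v * (x3 - x1) = u * f3 := by
      rw [hu, hv]
      linear_combination -d3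
    rw [this, ← e3]
    ring
  have g4 : D * (u * f1 + v * (x4 - x1)) ^ 2 = u ^ 2 * (x4 ^ 3 + k) := by
    have : u * f1 + v * (x4 - x1) = u * f4 := by
      rw [hu, hv]
      linear_combination -d4
    rw [this, ← e4]
    ring
  have hV : u ^ 2 * ((x2 - x1) * (x3 - x1) * (x4 - x1) * (x3 - x2) * (x4 - x2) * (x4 - x3)) = 0 := by
    linear_combination ((x3 - x2) * (x4 - x2) * (x4 - x3)) * g1 - ((x3 - x1) * (x4 - x1) * (x4 - x3)) * g2 +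
      ((x2 - x1) * (x4 - x1) * (x4 - x2)) * g3 - ((x2 - x1) * (x3 - x1) * (x3 - x2)) * g4
  have hu0 : 0 < u := by omega
  have c1 : 0 < x2 - x1 := by omega
  have c2 : 0 < x3 - x1 := by omega
  have c3 : 0 < x4 - x1 := by omega
  have c4 : 0 < x3 - x2 := by omega
  have c5 : 0 < x4 - x2 := by omega
  have c6 : 0 < x4 - x3 := by omega
  have : 0 < u ^ 2 * ((x2 - x1) * (x3 - x1) * (x4 - x1) * (x3 - x2) * (x4 - x2) * (x4 - x3)) := by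
    positivity
  omega

open Classical in
/-- Every window of length `H` in `(A, 2A]` with `1000 H³ ≤ A^(1/2)` contains at most three `X` with a point. -/
theorem window {D : ℕ} (hD : 1 ≤ D) {k : ℤ} {A : ℕ} (hA : 1 ≤ A) (hk : 2 * |k| ≤ (A : ℤ) ^ 3) {a H : ℕ}
    (ha : A < a) (haH : a + H ≤ 2 * A) (hH : (1000 * H ^ 3) ^ 2 ≤ A) :
    ((Icc a (a + H)).filter (fun X : ℕ => ∃ f : ℤ, (D : ℤ) * f ^ 2 = (X : ℤ) ^ 3 + k)).card ≤ 3 := by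
  by_contra hcon
  push Not at hcon
  set S := (Icc a (a + H)).filter (fun X : ℕ => ∃ f : ℤ, (D : ℤ) * f ^ 2 = (X : ℤ) ^ 3 + k) with hS
  have hS' : ∀ X ∈ S, a ≤ X ∧ X ≤ a + H ∧ ∃ f : ℤ, 0 ≤ f ∧ (D : ℤ) * f ^ 2 = (X : ℤ) ^ 3 + k := by
    intro X hX
    rw [hS] at hX
    obtain ⟨h2, f, hf⟩ := mem_filter.1 hX
    obtain ⟨h3, h4⟩ := mem_Icc.1 h2
    exact ⟨h3, h4, |f|, abs_nonneg f, by rw [sq_abs]; exact hf⟩
  obtain ⟨e, he⟩ : ∃ e : Fin S.card ↪o ℕ, ∀ i, e i ∈ S := ⟨S.orderEmbOfFin rfl, fun i => S.orderEmbOfFin_mem rfl i⟩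
  have hmem : ∀ i : Fin S.card, a ≤ e i ∧ e i ≤ a + H ∧ ∃ f : ℤ, 0 ≤ f ∧ (D : ℤ) * f ^ 2 = ((e i : ℕ) : ℤ) ^ 3 + k := by
    intro i
    exact hS' (e i) (he i)
  obtain ⟨a1, b1, f1, p1, e1⟩ := hmem ⟨0, by omega⟩
  obtain ⟨a2, b2, f2, p2, e2⟩ := hmem ⟨1, by omega⟩
  obtain ⟨a3, b3, f3, p3, e3⟩ := hmem ⟨2, by omega⟩
  obtain ⟨a4, b4, f4, p4, e4⟩ := hmem ⟨3, by omega⟩
  have l12 : e ⟨0, by omega⟩ < e ⟨1, by omega⟩ := e.strictMono (by simp)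
  have l23 : e ⟨1, by omega⟩ < e ⟨2, by omega⟩ := e.strictMono (by simp)
  have l34 : e ⟨2, by omega⟩ < e ⟨3, by omega⟩ := e.strictMono (by simp)
  have hD' : (1 : ℤ) ≤ D := by exact_mod_cast hD
  have hA' : (1 : ℤ) ≤ A := by exact_mod_cast hA
  have hH' : (1000 * (H : ℤ) ^ 3) ^ 2 ≤ A := by exact_mod_cast hH
  have d3 := delta_zero (H := (H : ℤ)) hD' hA' hk (by positivity) hH' (by omega) (by exact_mod_cast l12)
    (by exact_mod_cast l23) (by omega) (by omega) p1 p2 p3 e1 e2 e3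
  have d4 := delta_zero (H := (H : ℤ)) hD' hA' hk (by positivity) hH' (by omega) (by exact_mod_cast l12)
    (by exact_mod_cast (l23.trans l34)) (by omega) (by omega) p1 p2 p4 e1 e2 e4
  exact no_four (by exact_mod_cast l12) (by exact_mod_cast l23) (by exact_mod_cast l34) e1 e2 e3 e4 d3 d4

end Pool.Agent.FSol
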