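import Pool.Agent.FSol.Cnt

/-!
# FSol, module Main

All integer solutions: `x = -X`. If `|z| ≥ 2` then `X³ = 6 + y²(z²-1) > 0`, `y ≠ 0` (`X³ = 6` is impossible), so `X ≥ 1` and
`(X, |y|, |z|)` is as in `cnt`; four signs. `z = ± 1`: `x³ = -6` is impossible. `z = 0`: `y² = x³ + 6`, so `x ≥ -1`; `x = -1`: `y² = 5` no;
`x ≥ 0`: `x` has a point on `f² = X³ + 6` (`curveN`, `D = 1`, `k = 6`), two `y` for each `x`: at most `2 C N^(5/6)`.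
-/

open Finset

namespace Pool.Agent.FSol

private lemma cube_ne (x : ℤ) : x ^ 3 ≠ 6 := by
  intro h
  rcases le_or_gt x 1 with h1 | h1
  · rcases le_or_gt x 0 with h2 | h2
    · have : x ^ 3 ≤ 0 := by
        have h3 : x ^ 3 = x * x ^ 2 := by ring
        rw [h3]; exact mul_nonpos_of_nonpos_of_nonneg h2 (sq_nonneg x)
      omega
    · have : x = 1 := by omega
      subst this; norm_num at h
  · have : 2 ^ 3 ≤ x ^ 3 := pow_le_pow_left₀ (by norm_num) (by omega) 3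
    norm_num at this; omega

private lemma cube_ne' (x : ℤ) : x ^ 3 ≠ -6 := by
  intro h
  apply cube_ne (-x)
  have : (-x) ^ 3 = - x ^ 3 := by ring
  rw [this, h]; norm_num

private lemma z_ne (x y z : ℤ) (h : 6 + x ^ 3 - y ^ 2 + y ^ 2 * z ^ 2 = 0) : z ≠ 1 ∧ z ≠ -1 := by
  constructor
  · rintro rfl
    exact cube_ne' x (by linarith)
  · rintro rfl
    exact cube_ne' x (by nlinarith)

private lemma x_neg (x y z : ℤ) (h : 6 + x ^ 3 - y ^ 2 + y ^ 2 * z ^ 2 = 0) (hz : z ≠ 0) :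
    x < 0 ∧ y ≠ 0 ∧ 2 ≤ z.natAbs := by
  have h1 := z_ne x y z h
  have hz2 : 2 ≤ z.natAbs := by omega
  have hy : y ≠ 0 := by
    rintro rfl
    exact cube_ne' x (by nlinarith)
  have hz3 : 4 ≤ z ^ 2 := by
    have : (2 : ℤ) ≤ |z| := by
      rw [Int.abs_eq_natAbs]; exact_mod_cast hz2
    have h3 : (2 : ℤ) ^ 2 ≤ |z| ^ 2 := pow_le_pow_left₀ (by norm_num) this 2
    rw [sq_abs] at h3; linarith
  refine ⟨?_, hy, hz2⟩
  by_contra hx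
  push Not at hx
  have h4 : 0 ≤ x ^ 3 := by positivity
  have h5 : 0 ≤ y ^ 2 := sq_nonneg y
  nlinarith

private lemma x_nonneg (x y : ℤ) (h : 6 + x ^ 3 - y ^ 2 + y ^ 2 * 0 ^ 2 = 0) : 0 ≤ x := by
  by_contra hx
  push Not at hx
  have h1 : y ^ 2 = x ^ 3 + 6 := by linarith
  rcases eq_or_lt_of_le (show x ≤ -1 by omega) with h2 | h2
  · subst h2
    have h3 : y ^ 2 = 5 := by rw [h1]; norm_num
    have h4 : |y| ^ 2 = 5 := by rw [sq_abs]; exact h3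
    have h5 : 0 ≤ |y| := abs_nonneg y
    rcases le_or_gt |y| 2 with h6 | h6
    · have : |y| ^ 2 ≤ 2 ^ 2 := pow_le_pow_left₀ h5 h6 2
      norm_num at this; omega
    · have : 3 ^ 2 ≤ |y| ^ 2 := pow_le_pow_left₀ (by norm_num) (by omega) 2
      norm_num at this; omega
  · have h3 : 2 ^ 3 ≤ (-x) ^ 3 := pow_le_pow_left₀ (by norm_num) (by omega) 3
    have h4 : (-x) ^ 3 = - x ^ 3 := by ring
    have h5 : 0 ≤ y ^ 2 := sq_nonneg y
    rw [h4] at h3; norm_num at h3; linarith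

open Classical in
private lemma part1 {ε : ℝ} (C : ℝ) (N : ℕ) (hC : ∀ S : Finset (ℕ × ℕ × ℕ),
    (∀ t ∈ S, t.1 ≤ N ∧ 1 ≤ t.2.1 ∧ 2 ≤ t.2.2 ∧
      (t.1 : ℤ) ^ 3 - 6 = (t.2.1 : ℤ) ^ 2 * ((t.2.2 : ℤ) ^ 2 - 1)) →
    (S.card : ℝ) ≤ C * (N : ℝ) ^ (11 / 12 + ε : ℝ)) (F : Finset (ℤ × ℤ × ℤ))
    (hF : ∀ t ∈ F, |t.1| ≤ (N : ℤ) ∧ t.2.2 ≠ 0 ∧
      6 + t.1 ^ 3 - t.2.1 ^ 2 + t.2.1 ^ 2 * t.2.2 ^ 2 = 0) :
    (F.card : ℝ) ≤ 4 * (C * (N : ℝ) ^ (11 / 12 + ε : ℝ)) := by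
  set g : ℤ × ℤ × ℤ → ℕ × ℕ × ℕ := fun t => (t.1.natAbs, t.2.1.natAbs, t.2.2.natAbs) with hg
  have h1 : F.card ≤ 4 * (F.image g).card := by
    refine Finset.card_le_mul_card_image _ _ (fun a ha => ?_)
    have hsub : F.filter (fun x => g x = a) ⊆
        ({(-(a.1 : ℤ), (a.2.1 : ℤ), (a.2.2 : ℤ)), (-(a.1 : ℤ), -(a.2.1 : ℤ), (a.2.2 : ℤ)),
          (-(a.1 : ℤ), (a.2.1 : ℤ), -(a.2.2 : ℤ)), (-(a.1 : ℤ), -(a.2.1 : ℤ), -(a.2.2 : ℤ))} :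
          Finset (ℤ × ℤ × ℤ)) := by
      intro t ht
      obtain ⟨htF, hta⟩ := Finset.mem_filter.1 ht
      obtain ⟨_, hz, he⟩ := hF t htF
      obtain ⟨hx, _, _⟩ := x_neg _ _ _ he hz
      obtain ⟨x, y, z⟩ := t
      subst hta
      simp only [hg, Finset.mem_insert, Finset.mem_singleton, Prod.mk.injEq] at hx ⊢
      have e1 : x = -(x.natAbs : ℤ) := by omega
      have e2 : y = (y.natAbs : ℤ) ∨ y = -(y.natAbs : ℤ) := by omega
      have e3 : z = (z.natAbs : ℤ) ∨ z = -(z.natAbs : ℤ) := by omega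
      tauto
    refine (Finset.card_le_card hsub).trans ?_
    exact Finset.card_le_four
  have h2 := hC (F.image g) (by
    intro t ht
    obtain ⟨s, hs, rfl⟩ := Finset.mem_image.1 ht
    obtain ⟨hb, hz, he⟩ := hF s hs
    obtain ⟨hx, hy, hz2⟩ := x_neg _ _ _ he hz
    obtain ⟨x, y, z⟩ := s
    simp only [hg] at *
    have hb' : ((x.natAbs : ℕ) : ℤ) ≤ N := by rw [Int.natCast_natAbs]; exact hb
    refine ⟨by omega, by omega, hz2, ?_⟩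
    have e1 : ((x.natAbs : ℕ) : ℤ) = -x := by omega
    have e2 : ((y.natAbs : ℕ) : ℤ) ^ 2 = y ^ 2 := Int.natAbs_sq y
    have e3 : ((z.natAbs : ℕ) : ℤ) ^ 2 = z ^ 2 := Int.natAbs_sq z
    rw [e1, e2, e3]
    linear_combination -he)
  have h3 : (F.card : ℝ) ≤ 4 * ((F.image g).card : ℝ) := by exact_mod_cast h1
  linarith

open Classical in
private lemma part2 (C : ℝ) (N : ℕ) 
    (hC : (((range (N + 1)).filter (fun X : ℕ => ∃ f : ℤ, ((1 : ℕ) : ℤ) * f ^ 2 =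
      (X : ℤ) ^ 3 + 6)).card : ℝ) ≤
      C * (N : ℝ) ^ (5 / 6 : ℝ)) (F : Finset (ℤ × ℤ × ℤ))
    (hF : ∀ t ∈ F, |t.1| ≤ (N : ℤ) ∧ t.2.2 = 0 ∧
      6 + t.1 ^ 3 - t.2.1 ^ 2 + t.2.1 ^ 2 * t.2.2 ^ 2 = 0) :
    (F.card : ℝ) ≤ 2 * (C * (N : ℝ) ^ (5 / 6 : ℝ)) := by
  set g : ℤ × ℤ × ℤ → ℕ := fun t => t.1.natAbs with hg
  have h1 : F.card ≤ 2 * (F.image g).card := by
    refine Finset.card_le_mul_card_image _ _ (fun a ha => ?_)
    obtain ⟨s, hs, rfl⟩ := Finset.mem_image.1 ha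
    obtain ⟨_, hz, he⟩ := hF s hs
    obtain ⟨x, y, z⟩ := s
    simp only at hz he
    subst hz
    have hx := x_nonneg x y he
    have hsub : F.filter (fun t => g t = g (x, y, 0)) ⊆
        ({(x, y, 0), (x, -y, 0)} : Finset (ℤ × ℤ × ℤ)) := by
      intro t ht
      obtain ⟨htF, hta⟩ := Finset.mem_filter.1 ht
      obtain ⟨_, hz', he'⟩ := hF t htF
      obtain ⟨x', y', z'⟩ := t
      simp only at hz' he'
      subst hz'
      have hx' := x_nonneg x' y' he'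
      simp only [hg] at hta
      have hxx : x' = x := by omega
      subst hxx
      have hyy : y' ^ 2 = y ^ 2 := by linarith
      rcases sq_eq_sq_iff_eq_or_eq_neg.1 hyy with h | h
      · simp [h]
      · simp [h]
    exact (Finset.card_le_card hsub).trans Finset.card_le_two
  have h2 : (F.image g) ⊆ ((range (N + 1)).filter (fun X : ℕ => ∃ f : ℤ, ((1 : ℕ) : ℤ) * f ^ 2 =
      (X : ℤ) ^ 3 + 6)) := by
    intro a ha
    obtain ⟨s, hs, rfl⟩ := Finset.mem_image.1 ha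
    obtain ⟨hb, hz, he⟩ := hF s hs
    obtain ⟨x, y, z⟩ := s
    simp only at hb hz he
    subst hz
    have hx := x_nonneg x y he
    simp only [hg, Finset.mem_filter, Finset.mem_range]
    have hb' : ((x.natAbs : ℕ) : ℤ) ≤ N := by rw [Int.natCast_natAbs]; exact hb
    refine ⟨by omega, y, ?_⟩
    have e1 : ((x.natAbs : ℕ) : ℤ) = x := by omega
    rw [e1]; push_cast; linarith
  have h3 : (F.card : ℝ) ≤ 2 * ((F.image g).card : ℝ) := by exact_mod_cast h1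
  have h4 : ((F.image g).card : ℝ) ≤ C * (N : ℝ) ^ (5 / 6 : ℝ) :=
    le_trans (Nat.cast_le.2 (Finset.card_le_card h2)) hC
  linarith

theorem main {ε : ℝ} (hε : 0 < ε) : ∃ C : ℝ, ∀ N : ℕ, 1 ≤ N →
    {t : ℤ × ℤ × ℤ | |t.1| ≤ (N : ℤ) ∧
      6 + t.1 ^ 3 - t.2.1 ^ 2 + t.2.1 ^ 2 * t.2.2 ^ 2 = 0}.Finite ∧
    ({t : ℤ × ℤ × ℤ | |t.1| ≤ (N : ℤ) ∧
      6 + t.1 ^ 3 - t.2.1 ^ 2 + t.2.1 ^ 2 * t.2.2 ^ 2 = 0}.ncard : ℝ) ≤
      C * (N : ℝ) ^ (11 / 12 + ε : ℝ) := by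
  classical
  obtain ⟨C1, hC1, h1⟩ := cnt hε
  obtain ⟨C2, hC2, h2⟩ := curveN
  refine ⟨4 * C1 + 2 * C2, fun N hN => ?_⟩
  set S : Set (ℤ × ℤ × ℤ) := {t : ℤ × ℤ × ℤ | |t.1| ≤ (N : ℤ) ∧
      6 + t.1 ^ 3 - t.2.1 ^ 2 + t.2.1 ^ 2 * t.2.2 ^ 2 = 0} with hS
  have key : ∀ F : Finset (ℤ × ℤ × ℤ), (F : Set (ℤ × ℤ × ℤ)) ⊆ S →
      (F.card : ℝ) ≤ (4 * C1 + 2 * C2) * (N : ℝ) ^ (11 / 12 + ε : ℝ) := by
    intro F hF
    have hp1 := part1 (ε := ε) C1 N (h1 N hN) (F.filter (fun t => t.2.2 ≠ 0)) (by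
      intro t ht
      obtain ⟨ht1, ht2⟩ := Finset.mem_filter.1 ht
      have := hF (Finset.mem_coe.2 ht1)
      exact ⟨this.1, ht2, this.2⟩)
    have hp2 := part2 C2 N (by
      have := h2 1 6 N le_rfl hN (by norm_num)
      exact this) (F.filter (fun t => ¬ t.2.2 ≠ 0)) (by
      intro t ht
      obtain ⟨ht1, ht2⟩ := Finset.mem_filter.1 ht
      have := hF (Finset.mem_coe.2 ht1)
      exact ⟨this.1, not_not.1 ht2, this.2⟩)
    have hsum := Finset.card_filter_add_card_filter_not (s := F) (fun t => t.2.2 ≠ 0)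
    have hsum' : (F.card : ℝ) = ((F.filter (fun t => t.2.2 ≠ 0)).card : ℝ) +
        ((F.filter (fun t => ¬ t.2.2 ≠ 0)).card : ℝ) := by exact_mod_cast hsum.symm
    have hN1 : (1 : ℝ) ≤ (N : ℝ) := by exact_mod_cast hN
    have hpow : (N : ℝ) ^ (5 / 6 : ℝ) ≤ (N : ℝ) ^ (11 / 12 + ε : ℝ) :=
      Real.rpow_le_rpow_of_exponent_le hN1 (by linarith)
    have h5 : C2 * (N : ℝ) ^ (5 / 6 : ℝ) ≤ C2 * (N : ℝ) ^ (11 / 12 + ε : ℝ) :=
      mul_le_mul_of_nonneg_left hpow hC2.le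
    rw [hsum']
    linarith
  have hfin : S.Finite := by
    by_contra hinf
    obtain ⟨F, hF, hFc⟩ := Set.Infinite.exists_subset_card_eq hinf
      (⌊(4 * C1 + 2 * C2) * (N : ℝ) ^ (11 / 12 + ε : ℝ)⌋₊ + 1)
    have h3 := key F hF
    rw [hFc] at h3
    push_cast at h3
    have h4 := Nat.lt_floor_add_one ((4 * C1 + 2 * C2) * (N : ℝ) ^ (11 / 12 + ε : ℝ))
    linarith
  refine ⟨hfin, ?_⟩
  rw [Set.ncard_eq_toFinset_card S hfin]
  exact key _ (by simp)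

end Pool.Agent.FSol
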