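import Mathlib

/-!
# FSol, module Roots: the congruence `X³ ≡ 6 (mod m)`

`m` odd and not divisible by `9`. The number of roots `r` in `ZMod m` of `r ^ 3 = 6` is at most `3 ^ ω(m)`.
Proof. Induction on the factorisation (`Nat.recOnPosPrimePosCoprime`). Coprime `m = m₁ m₂`: `X ↦ (X mod m₁, X mod m₂)`
is injective (`ZMod.chineseRemainder`), so the number of roots is at most the product. Prime power `q ^ k`, `q ≥ 5`: a root
is a unit; for two roots `a, b` we have `(a / b) ^ 3 = 1` in `(ZMod (q ^ k))ˣ`, which is cyclic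
(`ZMod.isCyclic_units_of_prime_pow`), so there are at most `3` such quotients (`IsCyclic.card_pow_eq_one_le`).
`q = 3`: then `k = 1` (`9 ∤ m`), `ZMod 3` has `3` elements.
-/

open Finset

namespace Pool.Agent.FSol

/-- At most `3` cube roots of a unit in a ring with cyclic unit group. -/
lemma card_roots_of_cyclic (R : Type) [CommRing R] [Fintype R] [DecidableEq R] [IsCyclic Rˣ]
    (c : R) (hc : IsUnit c) : (univ.filter (fun r : R => r ^ 3 = c)).card ≤ 3 := by
  classical
  rcases (univ.filter (fun r : R => r ^ 3 = c)).eq_empty_or_nonempty with h | ⟨a, ha⟩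
  · rw [h]
    simp
  · rw [mem_filter] at ha
    have hunit : ∀ r : R, r ^ 3 = c → IsUnit r := by
      intro r hr
      rw [← hr] at hc
      exact (isUnit_pow_iff (by norm_num)).1 hc
    obtain ⟨u, hu⟩ := hunit a ha.2
    have h1 : (univ.filter (fun v : Rˣ => v ^ 3 = 1)).card ≤ 3 :=
      IsCyclic.card_pow_eq_one_le (by norm_num)
    refine le_trans ?_ h1
    have h2 : (univ.filter (fun r : R => r ^ 3 = c)) ⊆
        (univ.filter (fun v : Rˣ => v ^ 3 = 1)).image (fun v : Rˣ => (v : R) * (u : R)) := by
      intro r hr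
      rw [mem_filter] at hr
      obtain ⟨v, hv⟩ := hunit r hr.2
      rw [mem_image]
      refine ⟨v * u⁻¹, ?_, ?_⟩
      · rw [mem_filter]
        refine ⟨mem_univ _, ?_⟩
        have h3 : v ^ 3 = u ^ 3 := by
          apply Units.ext
          rw [Units.val_pow_eq_pow_val, Units.val_pow_eq_pow_val, hv, hu, hr.2, ha.2]
        rw [mul_pow, h3, ← mul_pow]
        simp
      · rw [← Units.val_mul]
        simp [hv]
    exact (card_le_card h2).trans card_image_le

lemma roots_prime_pow (q k : ℕ) (hq : q.Prime) (h2 : q ≠ 2) (h3 : q = 3 → k = 1)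
    [NeZero (q ^ k)] :
    (univ.filter (fun r : ZMod (q ^ k) => r ^ 3 = 6)).card ≤ 3 := by
  by_cases hq3 : q = 3
  · have hk1 := h3 hq3
    refine (card_filter_le _ _).trans ?_
    rw [card_univ, ZMod.card, hq3, hk1]
    norm_num
  · have : IsCyclic (ZMod (q ^ k))ˣ := ZMod.isCyclic_units_of_prime_pow q hq h2 k
    refine card_roots_of_cyclic _ _ ?_
    have h6 : Nat.Coprime 6 (q ^ k) := by
      apply Nat.Coprime.pow_right
      have : (6 : ℕ) = 2 * 3 := by norm_num
      rw [this]
      apply Nat.Coprime.mul_left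
      · exact (Nat.coprime_primes Nat.prime_two hq).2 (Ne.symm h2)
      · exact (Nat.coprime_primes Nat.prime_three hq).2 (Ne.symm hq3)
    have := (ZMod.isUnit_iff_coprime 6 (q ^ k)).2 h6
    exact_mod_cast this

lemma roots_mul (a b : ℕ) (hab : Nat.Coprime a b) [NeZero a] [NeZero b] [NeZero (a * b)] :
    (univ.filter (fun r : ZMod (a * b) => r ^ 3 = 6)).card ≤
      (univ.filter (fun r : ZMod a => r ^ 3 = 6)).card *
        (univ.filter (fun r : ZMod b => r ^ 3 = 6)).card := by
  rw [← card_product]
  refine card_le_card_of_injOn (fun r => ZMod.chineseRemainder hab r) ?_ ?_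
  · intro r hr
    rw [mem_coe, mem_filter] at hr
    have h := congrArg (ZMod.chineseRemainder hab) hr.2
    rw [map_pow, map_ofNat] at h
    rw [coe_product, Set.mem_prod, mem_coe, mem_coe, mem_filter, mem_filter]
    refine ⟨⟨mem_univ _, ?_⟩, ⟨mem_univ _, ?_⟩⟩
    · have := congrArg Prod.fst h
      simpa using this
    · have := congrArg Prod.snd h
      simpa using this
  · exact (ZMod.chineseRemainder hab).injective.injOn

theorem roots_card (m : ℕ) [NeZero m] (h2 : ¬ 2 ∣ m) (h9 : ¬ 9 ∣ m) :
    (univ.filter (fun r : ZMod m => r ^ 3 = 6)).card ≤ 3 ^ m.primeFactors.card := by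
  have key : ∀ m : ℕ, ∀ _ : NeZero m, ¬ 2 ∣ m → ¬ 9 ∣ m →
      (univ.filter (fun r : ZMod m => r ^ 3 = 6)).card ≤ 3 ^ m.primeFactors.card := by
    intro m
    induction m using Nat.recOnPosPrimePosCoprime with
    | zero => intro h; exact absurd rfl h.out
    | one =>
      intro h _ _
      refine (card_filter_le _ _).trans ?_
      rw [card_univ, ZMod.card]
      simp
    | prime_pow q k hq hk =>
      intro h h2 h9
      rw [Nat.primeFactors_prime_pow hk.ne' hq, card_singleton, pow_one]
      refine roots_prime_pow q k hq ?_ ?_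
      · rintro rfl
        exact h2 (dvd_pow_self 2 hk.ne')
      · rintro rfl
        by_contra hk1
        apply h9
        have : (9 : ℕ) = 3 ^ 2 := by norm_num
        rw [this]
        exact pow_dvd_pow 3 (by omega)
    | coprime a b ha hb hab iha ihb =>
      intro h h2 h9
      have : NeZero a := ⟨by omega⟩
      have : NeZero b := ⟨by omega⟩
      rw [hab.primeFactors_mul, card_union_of_disjoint hab.disjoint_primeFactors, pow_add]
      refine (roots_mul a b hab).trans (Nat.mul_le_mul ?_ ?_)
      · exact iha _ (fun h => h2 (h.mul_right b)) (fun h => h9 (h.mul_right b))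
      · exact ihb _ (fun h => h2 (h.mul_left a)) (fun h => h9 (h.mul_left a))
  exact key m _ h2 h9

end Pool.Agent.FSol
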