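import Pool.Agent.FSol.Roots
import Pool.Agent.Sps.DivB

/-!
# FSol, module RootsN: solutions `X ≤ N` of `X³ ≡ 6 (mod m)`

Paper proof. `X ↦ (X : ZMod m)` maps the set to the roots (`roots_card`); every class modulo `m` contains at most `N / m + 1` of the
`X ∈ [0, N]` (`Nat.count_modEq_card`, or: `X ↦ X / m` is injective on a class, with values in `range (N / m + 1)`); so the number is at most
`3 ^ ω(m) (N / m + 1)`. `3 ^ ω(m) ≤ C m ^ ε` is `pow_omega_le` in `Sps/DivB.lean`.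
-/

open Finset

namespace Pool.Agent.FSol

theorem rootsN {ε : ℝ} (hε : 0 < ε) : ∃ C : ℝ, 0 < C ∧ ∀ m : ℕ, 1 ≤ m → ¬ 2 ∣ m → ¬ 9 ∣ m → ∀ N : ℕ,
    (((range (N + 1)).filter (fun X : ℕ => (m : ℤ) ∣ (X : ℤ) ^ 3 - 6)).card : ℝ) ≤
      C * (m : ℝ) ^ ε * ((N : ℝ) / m + 1) := by
  obtain ⟨C, hC1, hC⟩ := Pool.Sps.pow_omega_le 3 ε hε
  refine ⟨C, by linarith, ?_⟩
  intro m hm h2 h9 N
  have hne : NeZero m := ⟨by omega⟩
  have hcard : ((range (N + 1)).filter (fun X : ℕ => (m : ℤ) ∣ (X : ℤ) ^ 3 - 6)).card ≤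
      ((univ.filter (fun r : ZMod m => r ^ 3 = 6)) ×ˢ range (N / m + 1)).card := by
    apply card_le_card_of_injOn (fun X : ℕ => ((X : ZMod m), X / m))
    · intro X hX
      rw [mem_coe, mem_filter, mem_range] at hX
      rw [mem_coe, mem_product, mem_filter, mem_range]
      refine ⟨⟨mem_univ _, ?_⟩, ?_⟩
      · have h := (ZMod.intCast_zmod_eq_zero_iff_dvd ((X : ℤ) ^ 3 - 6) m).2 hX.2
        push_cast at h
        exact sub_eq_zero.1 h
      · have h : X / m ≤ N / m := Nat.div_le_div_right (by omega)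
        show X / m < N / m + 1
        omega
    · intro X _ Y _ h
      have h1 : (X : ZMod m) = (Y : ZMod m) := congrArg Prod.fst h
      have h2 : X / m = Y / m := congrArg Prod.snd h
      have h3 : X % m = Y % m := (ZMod.natCast_eq_natCast_iff' X Y m).1 h1
      rw [← Nat.div_add_mod X m, ← Nat.div_add_mod Y m, h2, h3]
  rw [card_product, card_range] at hcard
  have h1 := roots_card m h2 h9
  have h3 : ((range (N + 1)).filter (fun X : ℕ => (m : ℤ) ∣ (X : ℤ) ^ 3 - 6)).card ≤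
      3 ^ m.primeFactors.card * (N / m + 1) := hcard.trans (Nat.mul_le_mul_right _ h1)
  have h4 : (((range (N + 1)).filter (fun X : ℕ => (m : ℤ) ∣ (X : ℤ) ^ 3 - 6)).card : ℝ) ≤
      (3 : ℝ) ^ m.primeFactors.card * ((N / m : ℕ) + 1) := by
    exact_mod_cast h3
  refine h4.trans ?_
  have h5 : ((N / m : ℕ) : ℝ) ≤ (N : ℝ) / m := Nat.cast_div_le
  have h6 := hC m hm
  have h7 : ((3 : ℕ) : ℝ) = 3 := by norm_num
  rw [h7] at h6
  have h8 : (0 : ℝ) ≤ ((N / m : ℕ) : ℝ) + 1 := by positivity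
  exact mul_le_mul h6 (by linarith) h8 (by positivity)

end Pool.Agent.FSol
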