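import Pool.Agent.FSol.RootsN

/-!
# FSol, module SumG: the sum over the moduli
-/

open Finset

namespace Pool.Agent.FSol

/-- The sum over the moduli. -/
theorem sum_gen {ε : ℝ} (hε : 0 < ε) : ∃ C : ℝ, 0 < C ∧ ∀ (g : ℕ → ℕ) (good : ℕ → Prop) [DecidablePred good],
    (∀ m, 2 ≤ m → good m → m ^ 2 ≤ 2 * g m ∧ g m ≤ m ^ 2 ∧ ¬ 2 ∣ g m ∧ ¬ 9 ∣ g m) →
    ∀ N P Q : ℕ, 1 ≤ P → 1 ≤ N → 1 ≤ Q →
    ((((range (N + 1)) ×ˢ (Ioc P Q)).filter (fun q : ℕ × ℕ => good q.2 ∧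
      ((g q.2 : ℕ) : ℤ) ∣ (q.1 : ℤ) ^ 3 - 6)).card : ℝ) ≤
      C * (Q : ℝ) ^ ε * ((N : ℝ) / P + Q) := by
  obtain ⟨C, hC, h⟩ := rootsN (ε := ε / 2) (by positivity)
  refine ⟨2 * C, by positivity, ?_⟩
  intro g good _ hg N P Q hP hN hQ
  have hP0 : (0 : ℝ) < P := by exact_mod_cast hP
  have hQ0 : (0 : ℝ) < Q := by exact_mod_cast hQ
  have hQe : 0 < (Q : ℝ) ^ ε := Real.rpow_pos_of_pos hQ0 _
  rcases lt_or_ge Q P with hPQ | hPQ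
  · rw [Ioc_eq_empty_of_le hPQ.le, product_empty, filter_empty, card_empty]
    push_cast
    positivity
  have e1 : (((range (N + 1)) ×ˢ (Ioc P Q)).filter (fun q : ℕ × ℕ => good q.2 ∧
      ((g q.2 : ℕ) : ℤ) ∣ (q.1 : ℤ) ^ 3 - 6)).card =
      ∑ m ∈ Ioc P Q, ((range (N + 1)).filter (fun X : ℕ => good m ∧
        ((g m : ℕ) : ℤ) ∣ (X : ℤ) ^ 3 - 6)).card := by
    rw [card_filter, sum_product_right]
    exact sum_congr rfl (fun m _ => (card_filter _ _).symm)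
  have hterm : ∀ m ∈ Ioc P Q, (((range (N + 1)).filter (fun X : ℕ => good m ∧
      ((g m : ℕ) : ℤ) ∣ (X : ℤ) ^ 3 - 6)).card : ℝ) ≤
      C * (Q : ℝ) ^ ε * (2 * N * ((m : ℝ) ^ 2)⁻¹ + 1) := by
    intro m hm
    rw [mem_Ioc] at hm
    have hm2 : 2 ≤ m := by omega
    have hm0 : (0 : ℝ) < m := by exact_mod_cast (by omega : 0 < m)
    by_cases hgm : good m
    · obtain ⟨g1, g2, g3, g4⟩ := hg m hm2 hgm
      have hg1 : 1 ≤ g m := by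
        have : 4 ≤ m ^ 2 := by nlinarith
        omega
      have hg0 : (0 : ℝ) < g m := by exact_mod_cast hg1
      have h1 := h (g m) hg1 g3 g4 N
      have h2 : ((range (N + 1)).filter (fun X : ℕ => good m ∧ ((g m : ℕ) : ℤ) ∣ (X : ℤ) ^ 3 - 6)).card ≤
          ((range (N + 1)).filter (fun X : ℕ => ((g m : ℕ) : ℤ) ∣ (X : ℤ) ^ 3 - 6)).card :=
        card_le_card (fun X hX => by
          rw [mem_filter] at hX ⊢
          exact ⟨hX.1, hX.2.2⟩)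
      have h3 : ((g m : ℕ) : ℝ) ^ (ε / 2) ≤ (Q : ℝ) ^ ε := by
        have h4 : ((g m : ℕ) : ℝ) ≤ (Q : ℝ) ^ (2 : ℝ) := by
          rw [Real.rpow_two]
          have : g m ≤ Q ^ 2 := g2.trans (Nat.pow_le_pow_left hm.2 2)
          exact_mod_cast this
        calc ((g m : ℕ) : ℝ) ^ (ε / 2) ≤ ((Q : ℝ) ^ (2 : ℝ)) ^ (ε / 2) :=
              Real.rpow_le_rpow hg0.le h4 (by positivity)
          _ = (Q : ℝ) ^ ε := by
            rw [← Real.rpow_mul hQ0.le]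
            congr 1
            ring
      have h5 : (N : ℝ) / ((g m : ℕ) : ℝ) ≤ 2 * N * ((m : ℝ) ^ 2)⁻¹ := by
        rw [div_le_iff₀ hg0]
        have h6 : (m : ℝ) ^ 2 ≤ 2 * ((g m : ℕ) : ℝ) := by exact_mod_cast g1
        have h7 : ((m : ℝ) ^ 2)⁻¹ * (m : ℝ) ^ 2 = 1 := inv_mul_cancel₀ (by positivity)
        have h8 : 0 ≤ (N : ℝ) * ((m : ℝ) ^ 2)⁻¹ := by positivity
        calc (N : ℝ) = N * ((m : ℝ) ^ 2)⁻¹ * (m : ℝ) ^ 2 := by rw [mul_assoc, h7, mul_one]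
          _ ≤ N * ((m : ℝ) ^ 2)⁻¹ * (2 * ((g m : ℕ) : ℝ)) := mul_le_mul_of_nonneg_left h6 h8
          _ = 2 * N * ((m : ℝ) ^ 2)⁻¹ * ((g m : ℕ) : ℝ) := by ring
      calc (((range (N + 1)).filter (fun X : ℕ => good m ∧
            ((g m : ℕ) : ℤ) ∣ (X : ℤ) ^ 3 - 6)).card : ℝ) ≤
            (((range (N + 1)).filter (fun X : ℕ => ((g m : ℕ) : ℤ) ∣ (X : ℤ) ^ 3 - 6)).card : ℝ) := by
              exact_mod_cast h2
        _ ≤ C * ((g m : ℕ) : ℝ) ^ (ε / 2) * ((N : ℝ) / ((g m : ℕ) : ℝ) + 1) := h1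
        _ ≤ C * (Q : ℝ) ^ ε * (2 * N * ((m : ℝ) ^ 2)⁻¹ + 1) := by
          refine mul_le_mul (mul_le_mul_of_nonneg_left h3 hC.le) (by linarith) (by positivity) (by positivity)
    · have h0 : ((range (N + 1)).filter (fun X : ℕ => good m ∧ ((g m : ℕ) : ℤ) ∣ (X : ℤ) ^ 3 - 6)) = ∅ := by
        refine filter_eq_empty_iff.2 ?_
        intro X _ hX
        exact hgm hX.1
      rw [h0, card_empty]
      push_cast
      positivity
  have hsum : ∑ m ∈ Ioc P Q, (((m : ℝ)) ^ 2)⁻¹ ≤ (P : ℝ)⁻¹ := by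
    have h1 := sum_Ioc_inv_sq_le_sub (α := ℝ) (k := P) (n := Q) (by omega) hPQ
    have h2 : 0 ≤ ((Q : ℝ))⁻¹ := by positivity
    linarith
  rw [e1]
  push_cast
  calc ∑ m ∈ Ioc P Q, (((range (N + 1)).filter (fun X : ℕ => good m ∧
        ((g m : ℕ) : ℤ) ∣ (X : ℤ) ^ 3 - 6)).card : ℝ) ≤
        ∑ m ∈ Ioc P Q, C * (Q : ℝ) ^ ε * (2 * N * ((m : ℝ) ^ 2)⁻¹ + 1) := sum_le_sum hterm
    _ = C * (Q : ℝ) ^ ε * (2 * N * (∑ m ∈ Ioc P Q, (((m : ℝ)) ^ 2)⁻¹) + ((Q - P : ℕ) : ℝ)) := by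
        rw [← mul_sum, sum_add_distrib, ← mul_sum, sum_const, Nat.card_Ioc, nsmul_eq_mul, mul_one]
    _ ≤ C * (Q : ℝ) ^ ε * (2 * N * (P : ℝ)⁻¹ + Q) := by
        refine mul_le_mul_of_nonneg_left (add_le_add (mul_le_mul_of_nonneg_left hsum (by positivity)) ?_)
          (by positivity)
        exact_mod_cast Nat.sub_le Q P
    _ ≤ C * (Q : ℝ) ^ ε * (2 * ((N : ℝ) / P + Q)) := by
        refine mul_le_mul_of_nonneg_left ?_ (by positivity)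
        rw [div_eq_mul_inv]
        linarith
    _ = 2 * C * (Q : ℝ) ^ ε * ((N : ℝ) / P + Q) := by ring

end Pool.Agent.FSol
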