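import Pool.Agent.FSol.SumG

/-!
# FSol, module SumY: the middle ranges
-/

open Finset

namespace Pool.Agent.FSol

/-- The pairs `(X, y)`, `X ≤ N`, `P < y ≤ Q`, `y` prime to `6`, `y² ∣ X³ - 6`. -/
theorem sumY {ε : ℝ} (hε : 0 < ε) : ∃ C : ℝ, 0 < C ∧ ∀ N P Q : ℕ, 1 ≤ P → 1 ≤ N → 1 ≤ Q →
    ((((range (N + 1)) ×ˢ (Ioc P Q)).filter (fun q : ℕ × ℕ => ¬ 2 ∣ q.2 ∧ ¬ 3 ∣ q.2 ∧
      ((q.2 ^ 2 : ℕ) : ℤ) ∣ (q.1 : ℤ) ^ 3 - 6)).card : ℝ) ≤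
      C * (Q : ℝ) ^ ε * ((N : ℝ) / P + Q) := by
  obtain ⟨C, hC, h⟩ := sum_gen hε
  refine ⟨C, hC, ?_⟩
  intro N P Q hP hN hQ
  have h1 := h (fun y => y ^ 2) (fun y => ¬ 2 ∣ y ∧ ¬ 3 ∣ y) (by
    rintro m hm ⟨h2, h3⟩
    refine ⟨by omega, le_rfl, fun h4 => h2 (Nat.prime_two.dvd_of_dvd_pow h4), fun h4 => h3 ?_⟩
    exact Nat.prime_three.dvd_of_dvd_pow ((by norm_num : 3 ∣ 9).trans h4)) N P Q hP hN hQ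
  refine le_trans ?_ h1
  refine Nat.cast_le.2 (card_le_card ?_)
  intro q hq
  rw [mem_filter] at hq ⊢
  exact ⟨hq.1, ⟨hq.2.1, hq.2.2.1⟩, hq.2.2.2⟩

end Pool.Agent.FSol
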